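import Pool.Agent.Work.MP_6bf1e5_an.B.Est2

/-!
The continuation criterion on the Fourier side.
-/

open Set Complex Filter Topology MeasureTheory
open scoped InnerProductSpace ComplexConjugate

namespace Pool.Agent.Work.MP_6bf1e5_an.B

noncomputable section

/-- The symbol of `-ν Δ`. -/
def visc (ν : ℝ) (k : Z3) : C3 →L[ℂ] C3 := ((ν * ax k ^ 2 : ℝ) : ℂ) • ContinuousLinearMap.id ℂ C3

lemma visc_apply (ν : ℝ) (k : Z3) (v : C3) : visc ν k v = ((ν * ax k ^ 2 : ℝ) : ℂ) • v := rfl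

lemma diss_visc {ν : ℝ} (hν : 0 < ν) : Diss ν (visc ν) := by
  refine ⟨hν, fun k v _ => ?_, ⟨ν, 2, hν.le, fun k v => ?_⟩, fun k v h => ?_, fun k v => ?_⟩
  · rw [visc_apply, inner_smul_right, Complex.re_ofReal_mul, re_inner_self]
  · rw [visc_apply, norm_smul, Complex.norm_real, Real.norm_of_nonneg (by positivity)]
    have := ax_nonneg k
    have := ax_le_w k
    gcongr
  · rw [visc_apply, dt_smul_left, h, mul_zero]
  · rw [visc_apply, visc_apply, cj_smul, ax_neg, Complex.conj_ofReal]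

lemma log_le_log_mul {x y κ : ℝ} (hx : 0 ≤ x) (hy : 0 ≤ y) (hκ : 1 ≤ κ)
    (h : Real.exp 1 + x ≤ κ * (Real.exp 1 + y)) :
    Real.log (Real.exp 1 + x) ≤ (1 + Real.log κ) * Real.log (Real.exp 1 + y) := by
  have e0 := Real.exp_pos 1
  have h1 := Real.log_le_log (by positivity) h
  rw [Real.log_mul (by positivity) (by positivity)] at h1
  have h2 := one_le_log_e_add hy
  have h3 := Real.log_nonneg hκ
  nlinarith only [h1, h2, h3]

/-- Removing the zero mode of a multiplier. -/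
def cut (Φ : Z3 → C3 →L[ℂ] C3) (k : Z3) : C3 →L[ℂ] C3 := if k = 0 then 0 else Φ k

lemma Mult.cut {Φ : Z3 → C3 →L[ℂ] C3} (hΦ : Mult Φ) : Mult (cut Φ) := by
  obtain ⟨C, m, hC, hg⟩ := hΦ.growth
  refine ⟨fun k u v => ?_, C, m, hC, fun k v => ?_⟩ <;> unfold B.cut <;> split_ifs
  · simp
  · exact hΦ.sym k u v
  · have := w_pos k
    simp only [zero_apply, norm_zero]; positivity
  · exact hg k v

lemma hs_tf_cut (Φ : Z3 → C3 →L[ℂ] C3) (α β r : ℝ) (a : Z3 → C3) :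
    hs r (tf (cut Φ) α β a) = hs r (tf Φ α β a) := by
  unfold hs
  congr 1
  refine tsum_congr fun k => ?_
  split_ifs with hk
  · rfl
  · simp only [tf, cut, if_neg hk]

lemma crit_ineq {ν σ q c : ℝ} (hν : 0 < ν) (hσ : 1 / 2 ≤ σ) (hσ' : σ < 3 / 2) (hq1 : 1 < q)
    (hq2 : σ - 1 / 2 ≤ 2 / q) {Φ : Z3 → C3 →L[ℂ] C3} (hΦ : Mult Φ) (hc : 0 < c)
    (coer : ∀ k, k ≠ 0 → ∀ v, dt v k = 0 → c * ax k ^ (2 * σ) * ‖v‖ ^ 2 ≤ (⟪Φ k v, v⟫_ℂ).re) :
    ∃ K : ℝ, 0 ≤ K ∧ ∀ (a : Z3 → C3) (α β : ℝ), Rapid a → DivFree a → IsReal a →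
      0 ≤ QQ (cut Φ) a a ∧
      2 * QQ (cut Φ) a (FF (visc ν) a) + ν * c * hq (σ + 1) a ≤
        K * (hs (1 / 2 + 2 / q - 2 * σ) (tf Φ α β a) ^ q / Real.log (Real.exp 1 + hs σ a)) *
          ((Real.exp 1 + QQ (cut Φ) a a) * Real.log (Real.exp 1 + QQ (cut Φ) a a)) := by
  have q0 : 0 < q := by linarith only [hq1]
  have q2 : 2 / q < 2 := by rw [div_lt_iff₀ q0]; linarith only [hq1]
  have q3 : 0 < 2 / q := by positivity
  obtain ⟨θ₁, t1, t2, t3, t4, t5⟩ : ∃ θ₁ : ℝ, 0 < θ₁ ∧ θ₁ < 1 ∧ σ + θ₁ ≤ 3 / 2 ∧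
      θ₁ ≤ 2 - 2 / q ∧ 1 - 2 / q ≤ θ₁ := by
    refine ⟨min (1 - 1 / q) (3 / 2 - σ), lt_min ?_ (by linarith only [hσ']), (min_le_left _ _).trans_lt ?_,
      by linarith only [min_le_right (1 - 1 / q) (3 / 2 - σ)], (min_le_left _ _).trans ?_,
      le_min ?_ (by linarith only [hq2])⟩
    all_goals have : 2 / q = 2 * (1 / q) := by ring
    all_goals linarith only [q2, this, q3]
  obtain ⟨C, hC0, hC⟩ := tri_gen (σ := σ) (β := 1) (θ₁ := θ₁) (θ₂ := 2 - 2 / q - θ₁)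
    (r := 1 / 2 + 2 / q - 2 * σ) t1 t2 (by linarith only [t4]) (by linarith only [t5]) t3 (by linarith only [hσ, q2]) (by ring)
  have hA := diss_visc hν
  have hΨ := hΦ.cut
  have κ1 : 1 ≤ 2 + 1 / c := by have : 0 < 1 / c := by positivity
                                linarith only [this]
  have κ2 := Real.log_nonneg κ1
  refine ⟨2 * (ν * c / 2 * (C / (ν * c / 2)) ^ q) / c * (1 + Real.log (2 + 1 / c)), by positivity,
    fun a α β ha da ra => ?_⟩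
  have h3 : c * hq σ a ≤ QQ (cut Φ) a a := by
    rw [hq, ← tsum_mul_left]
    refine ((ha.summable_ht σ).mul_left c).tsum_le_tsum (fun k => ?_) (hΨ.summable ha ha)
    unfold ht cut
    split_ifs with hk
    · simp
    · rw [← mul_assoc]; exact coer k hk _ (da k)
  have Y0 := hq_nonneg σ a
  have y0 : 0 ≤ QQ (cut Φ) a a := le_trans (by positivity) h3
  refine ⟨y0, ?_⟩
  rw [QQ_FF hA hΨ α β ha da ra]
  have rt := hΨ.rapid_tf α β ha
  set m := hs (1 / 2 + 2 / q - 2 * σ) (tf Φ α β a) with hm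
  have m0 : 0 ≤ m := hs_nonneg _ _
  have h1 := choose_scale (S := |(TT a a fun k => LP k (tf (cut Φ) α β a k)).re|) (m := m)
    (θ := θ₁ + (2 - 2 / q - θ₁)) (β := 1) (q := q) (Y := hq σ a) (D := hq (σ + 1) a)
    (ε := ν * c / 2) hC0 m0 (by positivity) (by linarith only [q3]) (by field_simp; ring) q0 (fun R hR => by
      refine (hC a _ ha rt.LP da ra (hΨ.im_tf α β da) R hR).trans ?_
      have := hq_nonneg (σ + 1) a
      gcongr
      rw [hm, ← hs_tf_cut]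
      exact hs_LP_le rt _) (hq_nonneg _ _)
  obtain ⟨Cg, n, hCg, hg⟩ := hA.growth
  have h2 : ν * c * hq (σ + 1) a ≤ QQ (cut Φ) a fun k => visc ν k (a k) := by
    rw [hq, ← tsum_mul_left]
    refine ((ha.summable_ht _).mul_left _).tsum_le_tsum (fun k => ?_)
      (hΨ.summable ha (ha.map hCg hg))
    beta_reduce
    rw [visc_apply, inner_smul_right, Complex.re_ofReal_mul]
    unfold ht cut
    split_ifs with hk
    · simp
    · have k0 := ax_pos hk
      have := mul_le_mul_of_nonneg_left (coer k hk _ (da k)) (by positivity : 0 ≤ ν * ax k ^ 2)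
      refine le_trans (le_of_eq ?_) this
      rw [mul_add, Real.rpow_add k0, mul_one, Real.rpow_two]; ring
  set y := QQ (cut Φ) a a
  have e0 := Real.exp_pos 1
  have e1 : 1 ≤ Real.exp 1 := Real.one_le_exp zero_le_one
  have l0 := one_le_log_e_add (hs_nonneg σ a)
  have l1 := one_le_log_e_add y0
  have l2 : Real.log (Real.exp 1 + hs σ a) ≤
      (1 + Real.log (2 + 1 / c)) * Real.log (Real.exp 1 + y) := by
    refine log_le_log_mul (hs_nonneg _ _) y0 κ1 ?_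
    have a1 := hs_sq σ a
    have a2 : hq σ a ≤ 1 / c * y := by rw [one_div, le_inv_mul_iff₀ hc]; exact h3
    have a3 : 0 ≤ 1 / c * Real.exp 1 := by positivity
    linarith only [Y0, y0, e1, a1, a2, a3, sq_nonneg (hs σ a - 1)]
  have h4 := neg_abs_le (TT a a fun k => LP k (tf (cut Φ) α β a k)).re
  set E := ν * c / 2 * (C / (ν * c / 2)) ^ q
  have E0 : 0 ≤ E := by positivity
  have h5 : 2 * (E * m ^ q * hq σ a) ≤ 2 * E / c * (1 + Real.log (2 + 1 / c)) *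
      (m ^ q / Real.log (Real.exp 1 + hs σ a)) * ((Real.exp 1 + y) * Real.log (Real.exp 1 + y)) := by
    have mq : 0 ≤ m ^ q := by positivity
    set L := Real.log (Real.exp 1 + hs σ a)
    calc 2 * (E * m ^ q * hq σ a) = 2 * E / c * (m ^ q / L) * ((c * hq σ a) * L) := by
          field_simp
      _ ≤ 2 * E / c * (m ^ q / L) * ((Real.exp 1 + y) *
            ((1 + Real.log (2 + 1 / c)) * Real.log (Real.exp 1 + y))) := by
          gcongr; linarith only [h3, e1]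
      _ = _ := by ring
  linarith only [h2, h4, h1, h5]

/-- The criterion gives a bound of `∫ ‖u‖²_{H^{3/2}}`. -/
theorem crit_fourier {ν σ q c : ℝ} (hν : 0 < ν) (hσ : 1 / 2 ≤ σ) (hσ' : σ < 3 / 2) (hq1 : 1 < q)
    (hq2 : σ - 1 / 2 ≤ 2 / q) {Φ : Z3 → C3 →L[ℂ] C3} (hΦ : Mult Φ) (hc : 0 < c)
    (coer : ∀ k, k ≠ 0 → ∀ v, dt v k = 0 → c * ax k ^ (2 * σ) * ‖v‖ ^ 2 ≤ (⟪Φ k v, v⟫_ℂ).re)
    {a : ℝ → Z3 → C3} {Ts : ℝ} (ha : ∀ T, T < Ts → IsSol (visc ν) a 0 T) (α β : ℝ → ℝ)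
    (hI : ∫⁻ t in Ioo 0 Ts, ENNReal.ofReal (hs (1 / 2 + 2 / q - 2 * σ) (tf Φ (α t) (β t) (a t)) ^ q /
      Real.log (Real.exp 1 + hs σ (a t))) < ⊤) :
    ∃ K : ℝ, 0 ≤ K ∧
      ∀ T ∈ Ico 0 Ts, ∫⁻ t in Ioo 0 T, ENNReal.ofReal (hq (3 / 2) (a t)) ≤ ENNReal.ofReal K := by
  obtain ⟨K, K0, hK⟩ := crit_ineq hν hσ hσ' hq1 hq2 hΦ hc coer
  have hA := diss_visc hν
  set J := ∫⁻ t in Ioo 0 Ts, ENNReal.ofReal (hs (1 / 2 + 2 / q - 2 * σ)
    (tf Φ (α t) (β t) (a t)) ^ q / Real.log (Real.exp 1 + hs σ (a t))) with hJ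
  obtain ⟨B, B0, hB⟩ := osgood (QQ (cut Φ) (a 0) (a 0)) (K * J.toReal) (by positivity)
  have νc : 0 < ν * c := by positivity
  refine ⟨(ν * c)⁻¹ * B, by positivity, fun T hT => ?_⟩
  have s := ha T hT.2
  have key := (hB T _ _ (fun t => ν * c * hq (σ + 1) (a t)) (fun t => K * (hs (1 / 2 + 2 / q - 2 * σ) (tf Φ (α t) (β t) (a t)) ^ q /
      Real.log (Real.exp 1 + hs σ (a t)))) hT.1 rfl (fun t ht => s.hasDeriv_QQ hA hΦ.cut ht)
    (s.continuousOn_QQ_FF hA hΦ.cut) (continuousOn_const.mul (s.continuousOn_hq (σ + 1)))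
    (fun t ht => (hK _ 0 0 (s.rapid ht) (s.div t ht) (s.real t ht)).1)
    (fun t _ => mul_nonneg νc.le (hq_nonneg _ _))
    (fun t _ => mul_nonneg K0 (div_nonneg (Real.rpow_nonneg (hs_nonneg _ _) _)
      (zero_le_one.trans (one_le_log_e_add (hs_nonneg _ _)))))
    (fun t ht => (hK _ _ _ (s.rapid ht) (s.div t ht) (s.real t ht)).2) (by
      simp only [ENNReal.ofReal_mul K0]
      rw [lintegral_const_mul' _ _ ENNReal.ofReal_ne_top, ENNReal.ofReal_toReal hI.ne]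
      gcongr
      exact lintegral_mono_set (Ioo_subset_Ioo_right hT.2.le))).2
  rw [ENNReal.ofReal_mul (by positivity)]
  refine le_trans ?_ (mul_le_mul_right key _)
  rw [← lintegral_const_mul' _ _ ENNReal.ofReal_ne_top]
  refine setLIntegral_mono' measurableSet_Ioo fun t ht => ?_
  rw [← ENNReal.ofReal_mul (by positivity), ← mul_assoc, inv_mul_cancel₀ νc.ne', one_mul]
  exact ENNReal.ofReal_le_ofReal ((s.rapid (Ioo_subset_Icc_self ht)).hq_mono (by linarith only [hσ]))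

end

end Pool.Agent.Work.MP_6bf1e5_an.B
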