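import Pool.Agent.Work.MP_6bf1e5_an.B.Sparse

/-!
The continuation criterion on one helical component outside a sparse set of frequencies.
-/

open Set Complex Filter Topology MeasureTheory
open scoped InnerProductSpace ComplexConjugate

namespace Pool.Agent.Work.MP_6bf1e5_an.B

noncomputable section

lemma Sparse.nonneg {K : ℝ} {S : Set Z3} (h : Sparse K S) : 0 ≤ K := by
  have h1 := h (fun _ => 1) ∅ (by simp)
  have h2 : 0 < ax (fun _ => 1) := ax_pos fun h => by simpa using congrFun h 0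
  have h3 := one_le_log_e_add h2.le
  rw [Finset.sum_empty, mul_assoc] at h1
  exact nonneg_of_mul_nonneg_left h1 (by positivity)

lemma tf_La (s : ℝ) (a : Z3 → C3) (k : Z3) :
    tf La (-s) 0 a k = ((2 * ax k : ℝ) : ℂ) • hp s k (a k) := by
  by_cases hk : k = 0
  · have : curlS 0 (a 0) = 0 := by simpa using norm_curlS_le 0 (a 0)
    simp [tf, La, hk, this]
  have : ((ax k : ℝ) : ℂ) ≠ 0 := by exact_mod_cast (ax_pos hk).ne'
  simp only [tf, La, hp, smul_apply, ContinuousLinearMap.id_apply, smul_add, smul_smul]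
  push_cast
  rw [zero_smul, sub_zero, neg_smul, sub_neg_eq_add]
  congr 2 <;> field_simp

lemma QQ_La {a : Z3 → C3} : QQ La a a = hq (1 / 2) a := by
  refine tsum_congr fun k => ?_
  rw [La, re_inner_scalar, re_inner_self]
  by_cases hk : k = 0
  · simp [ht, hk]
  · rw [ht_nat 1 (by norm_num) a hk, pow_one]

lemma hs_indicator_tf (s r : ℝ) (a : Z3 → C3) (S : Set Z3) :
    hs r (S.indicator (tf La (-s) 0 a)) = 2 * hs (r + 1) (S.indicator fun k => hp s k (a k)) := by
  rw [hs_eq, hs_eq, ← Real.sqrt_sq two_pos.le, ← Real.sqrt_mul (sq_nonneg _), hq, hq,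
    ← tsum_mul_left]
  congr 1
  refine tsum_congr fun k => ?_
  unfold ht
  split_ifs with hk
  · simp
  have k0 := ax_pos hk
  by_cases hS : k ∈ S
  · rw [indicator_of_mem hS, indicator_of_mem hS, tf_La, norm_smul, Complex.norm_real,
      Real.norm_of_nonneg (by positivity), mul_add, Real.rpow_add k0, mul_one, Real.rpow_two]
    ring
  · simp [hS]

lemma llog_le {κ y l : ℝ} (hκ : 1 ≤ κ) (hy : 0 ≤ y) (hl : 0 ≤ l) (h : l ≤ κ * y) :
    l * Real.log (Real.exp 1 + l) ≤
      κ * (1 + Real.log κ) * ((Real.exp 1 + y) * Real.log (Real.exp 1 + y)) := by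
  have e0 := Real.exp_pos 1
  have := one_le_log_e_add hl
  have := one_le_log_e_add hy
  have := Real.log_nonneg hκ
  have a2 := log_le_log_mul hl hy hκ (by nlinarith only [hκ, h, e0])
  calc l * Real.log (Real.exp 1 + l)
      ≤ (κ * (Real.exp 1 + y)) * ((1 + Real.log κ) * Real.log (Real.exp 1 + y)) := by
        gcongr; nlinarith only [hκ, h, e0]
    _ = _ := by ring

lemma sparse_ineq {ν q K : ℝ} (hν : 0 < ν) (hq1 : 1 < q) (hK : 0 ≤ K) :
    ∃ K1 K2 : ℝ, 0 ≤ K1 ∧ 0 ≤ K2 ∧ ∀ (a : Z3 → C3) (s : ℝ) (S : Set Z3), Rapid a → DivFree a →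
      IsReal a → |s| = 1 → Sparse K S →
      2 * QQ La a (FF (visc ν) a) + ν * hq (3 / 2) a ≤
        (K1 * (hs (1 / 2 + 2 / q) (Sᶜ.indicator fun k => hp s k (a k)) ^ q /
          Real.log (Real.exp 1 + hs (1 / 2) a)) + K2 * (2 * QQ I1 a fun k => visc ν k (a k))) *
          ((Real.exp 1 + QQ La a a) * Real.log (Real.exp 1 + QQ La a a)) := by
  have q0 : 0 < q := by linarith
  have q1 : 1 / q < 1 := by rw [div_lt_one q0]; exact hq1
  have q2 : 0 < 1 / q := by positivity
  have q3 : 2 / q = 2 * (1 / q) := by ring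
  obtain ⟨C, hC0, hC⟩ := tri_gen (σ := 1 / 2) (β := 1) (θ₁ := 1 - 1 / q) (θ₂ := 1 - 1 / q)
    (r := 2 / q - 1 / 2) (by linarith only [q1]) (by linarith) (by linarith) (by linarith) (by linarith only [q2])
    (by linarith) (by ring)
  have hA := diss_visc hν
  set l := 48 * K / ν + 1 with hl
  have l0 : 0 < l := by positivity
  set κ := 32 * l / ν + 1 with hκ
  have κ1 : 1 ≤ κ := by have : 0 ≤ 32 * l / ν := by positivity
                        linarith only [this]
  have κ2 := Real.log_nonneg κ1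
  have l2 : 0 ≤ Real.log 2 := Real.log_nonneg one_le_two
  set E1 := ν / 8 * (C / (ν / 8)) ^ q * 2 ^ q with hE1
  have E10 : 0 ≤ E1 := by positivity
  refine ⟨2 * E1 * (1 + Real.log 2), κ * (1 + Real.log κ), by positivity, by positivity,
    fun a s S ha da ra hs1 hS => ?_⟩
  rw [QQ_FF hA mult_La (-s) 0 ha da ra, QQ_La]
  have rt := mult_La.rapid_tf (-s) 0 ha
  have e1 : ∀ k, LP k (tf La (-s) 0 a k) = tf La (-s) 0 a k := fun k =>
    LP_of_div (by rw [tf_La, dt_smul_left, dt_hp s (da k), mul_zero])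
  have im : ∀ (U : Set Z3) k, (⟪U.indicator (tf La (-s) 0 a) k, a k⟫_ℂ).im = 0 := fun U k => by
    by_cases h : k ∈ U
    · rw [indicator_of_mem h, ← e1]; exact mult_La.im_tf _ _ da k
    · simp [h]
  have e2 : (fun k => LP k (tf La (-s) 0 a k)) =
      fun k => Sᶜ.indicator (tf La (-s) 0 a) k + S.indicator (tf La (-s) 0 a) k := by
    funext k; rw [e1, indicator_compl_add_self_apply]
  rw [e2, TT_add_right ha (rt.indicator _) (rt.indicator _), Complex.add_re]
  set m := hs (1 / 2 + 2 / q) (Sᶜ.indicator fun k => hp s k (a k)) with hm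
  have m0 : 0 ≤ m := hs_nonneg _ _
  have h1 := choose_scale (S := |(TT a a (Sᶜ.indicator (tf La (-s) 0 a))).re|) (m := 2 * m)
    (θ := 1 - 1 / q + (1 - 1 / q)) (β := 1) (q := q) (Y := hq (1 / 2) a) (D := hq (1 / 2 + 1) a)
    (ε := ν / 8) hC0 (by positivity) (by positivity) (by linarith only [q2]) (by field_simp; ring) q0
    (fun R hR => by
      have := hC a _ ha (rt.indicator Sᶜ) da ra (im _) R hR
      rwa [hs_indicator_tf, show 2 / q - 1 / 2 + 1 = 1 / 2 + 2 / q by ring] at this) (hq_nonneg _ _)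
  rw [show (1 / 2 + 1 : ℝ) = 3 / 2 by norm_num, Real.mul_rpow two_pos.le m0] at h1
  set G : Z3 → ℝ := fun k => 4 * (Real.log (Real.exp 1 + ax k) * ht 1 a k) with hG
  have lk : ∀ k, 1 ≤ Real.log (Real.exp 1 + ax k) := fun k => one_le_log_e_add (ax_nonneg k)
  have G0 : ∀ k, 0 ≤ G k := fun k => by have := lk k; have := ht_nonneg 1 a k; positivity
  have fen : ∀ z : ℝ, 0 ≤ z → ∀ k, z * (Real.log (Real.exp 1 + ax k) * ht 1 a k) ≤
      ht (3 / 2) a k + z * Real.log (Real.exp 1 + z) * ht 1 a k := fun z hz k => by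
    have := mul_le_mul_of_nonneg_right (fenchel (ax_nonneg k) hz) (ht_nonneg 1 a k)
    have e : ht (3 / 2) a k = ax k * ht 1 a k := by
      by_cases hk : k = 0
      · simp [ht, hk]
      · rw [ht_nat 3 (by norm_num) a hk, ht_nat 2 (by norm_num) a hk]; ring
    rw [e]; linarith only [this]
  have sG : Summable G := Summable.of_nonneg_of_le G0
    (fun k => by have := fen 1 zero_le_one k; simp only [hG]; linarith only [this])
    (((ha.summable_ht (3 / 2)).add ((ha.summable_ht 1).mul_left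
      (1 * Real.log (Real.exp 1 + 1)))).mul_left 4)
  have h2 := tri_sparse ha (rt.indicator S) da ra (im S)
    (κ := S.indicator fun k => ax k ^ 2 / Real.log (Real.exp 1 + ax k)) (G := G)
    (fun k => indicator_nonneg (fun k _ => by have := lk k; positivity) k) G0 sG (fun k hk => by
      by_cases h : k ∈ S
      · have k0 := ax_pos hk
        have := lk k
        rw [indicator_of_mem h, indicator_of_mem h, tf_La, norm_smul, Complex.norm_real,
          Real.norm_of_nonneg (by positivity), hG]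
        simp only [ht_nat 2 (by norm_num : 2 * (1 : ℝ) = (2 : ℕ)) a hk]
        calc _ ≤ (ax k * (2 * ax k * ‖a k‖)) ^ 2 := by gcongr; exact norm_hp_le hs1 _ _
          _ = _ := by field_simp; ring
      · simp [h]) l0 hS.schur
  set y := hq (1 / 2) a
  have y0 : 0 ≤ y := hq_nonneg _ _
  set D := hq (3 / 2) a with hD
  have D0 : 0 ≤ D := hq_nonneg _ _
  set z := 32 * l / ν * y with hz
  have z0 : 0 ≤ z := by (clear * - hν hK y0; positivity)
  have h3 : l * (y * ∑' k, G k) ≤ ν / 8 * (D + z * Real.log (Real.exp 1 + z) * hq 1 a) := by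
    rw [← mul_assoc]
    refine hasSum_le (fun k => ?_) (sG.hasSum.mul_left _) (((ha.summable_ht (3 / 2)).hasSum.add
      ((ha.summable_ht 1).hasSum.mul_left _)).mul_left _)
    refine le_trans (le_of_eq ?_) (mul_le_mul_of_nonneg_left (fen z z0 k) (by positivity))
    simp only [hG, hz]; field_simp; ring
  have h4 : 6 * K * D / l ≤ ν / 8 * D := by
    rw [div_le_iff₀ l0]
    have : ν / 8 * D * l = 6 * K * D + ν / 8 * D := by rw [hl]; field_simp; ring
    rw [this]
    have : 0 ≤ ν / 8 * D := by positivity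
    linarith only [this]
  obtain ⟨Cg, n, hCg, hg⟩ := hA.growth
  have h5 : ν * D ≤ QQ La a fun k => visc ν k (a k) := by
    rw [hD, hq, ← tsum_mul_left]
    refine ((ha.summable_ht _).mul_left _).tsum_le_tsum (fun k => ?_)
      (mult_La.summable ha (ha.map hCg hg))
    beta_reduce
    rw [La, re_inner_scalar, visc_apply, inner_smul_right, Complex.re_ofReal_mul, re_inner_self]
    by_cases hk : k = 0
    · simp [ht, hk]
    · rw [ht_nat 3 (by norm_num) a hk]; exact le_of_eq (by ring)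
  have h6 : ν * hq 1 a ≤ QQ I1 a fun k => visc ν k (a k) := by
    rw [hq, ← tsum_mul_left]
    refine ((ha.summable_ht _).mul_left _).tsum_le_tsum (fun k => ?_)
      (mult_I1.summable ha (ha.map hCg hg))
    beta_reduce
    rw [I1, re_inner_scalar, visc_apply, inner_smul_right, Complex.re_ofReal_mul, re_inner_self]
    by_cases hk : k = 0
    · simp [ht, hk]
    · rw [ht_nat 2 (by norm_num) a hk]; exact le_of_eq (by ring)
  set E := QQ I1 a fun k => visc ν k (a k)
  have E0 : 0 ≤ ν * hq 1 a := mul_nonneg hν.le (hq_nonneg _ _)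
  have e0 := Real.exp_pos 1
  have e1' : 1 ≤ Real.exp 1 := Real.one_le_exp zero_le_one
  have ly := one_le_log_e_add y0
  have lz := one_le_log_e_add z0
  set Y := (Real.exp 1 + y) * Real.log (Real.exp 1 + y) with hY
  have Y0 : 0 ≤ Y := by (clear * - y0 ly; positivity)
  have h7 : z * Real.log (Real.exp 1 + z) * (ν * hq 1 a) ≤ κ * (1 + Real.log κ) * Y * E :=
    mul_le_mul (llog_le κ1 y0 z0 (by rw [hz, hκ]; linarith only [y0])) h6 E0 (by (clear * - hν hK κ2 y0 ly; positivity))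
  have h8 : E1 * m ^ q * y ≤
      E1 * (1 + Real.log 2) * (m ^ q / Real.log (Real.exp 1 + hs (1 / 2) a)) * Y := by
    have mq : 0 ≤ m ^ q := by positivity
    have l0 := one_le_log_e_add (hs_nonneg (1 / 2) a)
    have l3 : Real.log (Real.exp 1 + hs (1 / 2) a) ≤
        (1 + Real.log 2) * Real.log (Real.exp 1 + y) := by
      refine log_le_log_mul (hs_nonneg _ _) y0 one_le_two ?_
      have a1 := hs_sq (1 / 2) a
      linarith only [y0, e1', a1, sq_nonneg (hs (1 / 2) a - 1)]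
    set L := Real.log (Real.exp 1 + hs (1 / 2) a)
    calc E1 * m ^ q * y = E1 * (m ^ q / L) * (y * L) := by field_simp
      _ ≤ E1 * (m ^ q / L) * ((Real.exp 1 + y) *
            ((1 + Real.log 2) * Real.log (Real.exp 1 + y))) := by gcongr; linarith only [e1']
      _ = _ := by rw [hY]; ring
  have h9 := neg_abs_le (TT a a (Sᶜ.indicator (tf La (-s) 0 a))).re
  have h10 := neg_abs_le (TT a a (S.indicator (tf La (-s) 0 a))).re
  have h11 : 0 ≤ κ * (1 + Real.log κ) * Y * E := by have := E0.trans h6; (clear * - hν hK κ2 y0 ly this; positivity)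
  have h12 : ν / 8 * (C / (ν / 8)) ^ q * (2 ^ q * m ^ q) * y = E1 * m ^ q * y := by rw [hE1]; ring
  have h13 : 0 ≤ ν * D := by (clear * - hν D0; positivity)
  rw [h12] at h1
  linarith only [h1, h2, h3, h4, h5, h7, h8, h9, h10, h11, h13]

theorem energy_bound {ν : ℝ} {A : Z3 → C3 →L[ℂ] C3} (hA : Diss ν A) (a0 : Z3 → C3) :
    ∃ B : ℝ, 0 ≤ B ∧ ∀ (a : ℝ → Z3 → C3) (T : ℝ), 0 ≤ T → a 0 = a0 → IsSol A a 0 T →
      ContinuousOn (fun t => 2 * QQ I1 (a t) fun k => A k (a t k)) (Icc 0 T) ∧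
      ∫⁻ t in Ioo 0 T, ENNReal.ofReal (2 * QQ I1 (a t) fun k => A k (a t k)) ≤ ENNReal.ofReal B := by
  obtain ⟨B1, B10, hB1⟩ := osgood (QQ I1 a0 a0) 0 le_rfl
  refine ⟨B1, B10, fun a T hT h0 sl => ?_⟩
  obtain ⟨Cg, n, hCg, hg⟩ := hA.growth
  have cE : ContinuousOn (fun t => 2 * QQ I1 (a t) fun k => A k (a t k)) (Icc 0 T) := by
    refine continuousOn_const.mul (continuousOn_QQ mult_I1 sl.bd ?_ sl.continuousOn fun k =>
      (A k).continuous.comp_continuousOn (sl.continuousOn k))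
    obtain ⟨M, hM⟩ := sl.bd (0 + n)
    exact ⟨_, fun t ht => Bd.of_growth (hM t ht) hCg fun k => hg k _⟩
  exact ⟨cE, (hB1 T _ _ _ (fun _ => 0) hT (by rw [← h0]) (fun t ht => sl.hasDeriv_QQ hA mult_I1 ht)
    (sl.continuousOn_QQ_FF hA mult_I1) cE
    (fun t _ => tsum_nonneg fun k => by rw [I1, re_inner_scalar, re_inner_self]; positivity)
    (fun t ht => mul_nonneg two_pos.le (QQ_I1_nonneg hA (sl.div t ht))) (fun _ _ => le_rfl)
    (fun t ht => by rw [energy_eq hA (sl.rapid ht) (sl.div t ht) (sl.real t ht)]; simp)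
    (by simp)).2⟩

theorem sparse_fourier {ν q K : ℝ} (hν : 0 < ν) (hq1 : 1 < q) {a : ℝ → Z3 → C3} {Ts : ℝ}
    (ha : ∀ T, T < Ts → IsSol (visc ν) a 0 T) {s : ℝ → ℝ} (hs1 : ∀ t, |s t| = 1)
    {S : ℝ → Set Z3} (hS : ∀ t, Sparse K (S t))
    (hI : ∫⁻ t in Ioo 0 Ts, ENNReal.ofReal
      (hs (1 / 2 + 2 / q) ((S t)ᶜ.indicator fun k => hp (s t) k (a t k)) ^ q /
        Real.log (Real.exp 1 + hs (1 / 2) (a t))) < ⊤) :
    ∃ K : ℝ, 0 ≤ K ∧
      ∀ T ∈ Ico 0 Ts, ∫⁻ t in Ioo 0 T, ENNReal.ofReal (hq (3 / 2) (a t)) ≤ ENNReal.ofReal K := by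
  obtain ⟨K1, K2, K10, K20, hK⟩ := sparse_ineq hν hq1 (hS 0).nonneg
  have hA := diss_visc hν
  obtain ⟨B1, B10, hB1⟩ := energy_bound hA (a 0)
  set J := ∫⁻ t in Ioo 0 Ts, ENNReal.ofReal
      (hs (1 / 2 + 2 / q) ((S t)ᶜ.indicator fun k => hp (s t) k (a t k)) ^ q /
        Real.log (Real.exp 1 + hs (1 / 2) (a t))) with hJ
  obtain ⟨B, B0, hB⟩ := osgood (QQ La (a 0) (a 0)) (K1 * J.toReal + K2 * B1) (by positivity)
  refine ⟨ν⁻¹ * B, by positivity, fun T hT => ?_⟩
  have sl := ha T hT.2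
  obtain ⟨cE, k1⟩ := hB1 a T hT.1 rfl sl
  have g1 : ∀ t, 0 ≤ K1 * (hs (1 / 2 + 2 / q) ((S t)ᶜ.indicator fun k => hp (s t) k (a t k)) ^ q /
      Real.log (Real.exp 1 + hs (1 / 2) (a t))) := fun t =>
    mul_nonneg K10 (div_nonneg (Real.rpow_nonneg (hs_nonneg _ _) _)
      (zero_le_one.trans (one_le_log_e_add (hs_nonneg _ _))))
  have key := (hB T _ _ (fun t => ν * hq (3 / 2) (a t))
    (fun t => K1 * (hs (1 / 2 + 2 / q) ((S t)ᶜ.indicator fun k => hp (s t) k (a t k)) ^ q /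
      Real.log (Real.exp 1 + hs (1 / 2) (a t))) + K2 * (2 * QQ I1 (a t) fun k => visc ν k (a t k)))
    hT.1 rfl (fun t ht => sl.hasDeriv_QQ hA mult_La ht)
    (sl.continuousOn_QQ_FF hA mult_La) (continuousOn_const.mul (sl.continuousOn_hq _))
    (fun t _ => QQ_La ▸ hq_nonneg _ _) (fun t _ => mul_nonneg hν.le (hq_nonneg _ _))
    (fun t ht => add_nonneg (g1 t)
      (mul_nonneg K20 (mul_nonneg two_pos.le (QQ_I1_nonneg hA (sl.div t ht)))))
    (fun t ht => hK _ _ _ (sl.rapid ht) (sl.div t ht) (sl.real t ht) (hs1 t) (hS t)) (by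
      refine (lintegral_mono fun t => ENNReal.ofReal_add_le).trans ?_
      have cE' : ContinuousOn (fun t => K2 * (2 * QQ I1 (a t) fun k => visc ν k (a t k)))
          (Icc 0 T) := continuousOn_const.mul cE
      rw [lintegral_add_right' _ ((cE'.mono Ioo_subset_Icc_self).aemeasurable
        measurableSet_Ioo).ennreal_ofReal, ENNReal.ofReal_add (by positivity) (by positivity)]
      simp only [ENNReal.ofReal_mul K10, ENNReal.ofReal_mul K20]
      rw [lintegral_const_mul' _ _ ENNReal.ofReal_ne_top,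
        lintegral_const_mul' _ _ ENNReal.ofReal_ne_top, ENNReal.ofReal_toReal hI.ne]
      gcongr
      exact lintegral_mono_set (Ioo_subset_Ioo_right hT.2.le))).2
  rw [ENNReal.ofReal_mul (by positivity)]
  refine le_trans ?_ (mul_le_mul_right key _)
  rw [← lintegral_const_mul' _ _ ENNReal.ofReal_ne_top]
  refine setLIntegral_mono' measurableSet_Ioo fun t ht => ?_
  rw [← ENNReal.ofReal_mul (by positivity), ← mul_assoc, inv_mul_cancel₀ hν.ne', one_mul]

theorem sparse_criterion {ν T q K : ℝ} (hν : 0 < ν) (hT : 0 < T) (hq1 : 1 < q)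
    {u0 : R3 → R3} {u : R3 → ℝ → R3} {p : R3 → ℝ → ℝ}
    (h : IsSolutionOn (viscous ν) u0 (Ico 0 T) u p) {s : ℝ → ℝ} (hs1 : ∀ t, s t = 1 ∨ s t = -1)
    {S : ℝ → Set Z3} (hS : ∀ t, Sparse K (S t))
    (hI : ∫⁻ t in Ioo 0 T, ENNReal.ofReal
      (hs (1 / 2 + 2 / q) ((S t)ᶜ.indicator fun k => hp (s t) k (fc (fun x => u x t) k)) ^ q /
        Real.log (Real.exp 1 + hs (1 / 2) (fc fun x => u x t))) < ⊤) :
    ∃ T', T < T' ∧ ∃ (u' : R3 → ℝ → R3) (p' : R3 → ℝ → ℝ),
      IsSolutionOn (viscous ν) u0 (Ico 0 T') u' p' ∧ ∀ x, ∀ t ∈ Ico 0 T, u' x t = u x t := by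
  obtain ⟨K, K0, hK⟩ := sparse_fourier hν hq1 (a := fun s => fc fun x => u x s) (Ts := T)
    (fun S hS => h.isSol_viscous (uniqueDiffOn_Ico 0 T) (Icc_subset_Ico_right hS))
    (fun t => by rcases hs1 t with h | h <;> simp [h]) hS hI
  exact continuation hν hT h K0 hK

end

end Pool.Agent.Work.MP_6bf1e5_an.B
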