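import Mathlib

/-!
Definitions used in the statements about the periodic Navier-Stokes system.
Space is `Fin 3 → ℝ`, periods are the unit vectors, frequencies are `Fin 3 → ℤ`.
-/

open scoped ContDiff
open Set MeasureTheory

namespace Pool.Agent.Work.MP_6bf1e5_an.B

noncomputable section

/-- Physical space (and real vectors). -/
abbrev R3 := Fin 3 → ℝ

/-- Frequencies. -/
abbrev Z3 := Fin 3 → ℤ

/-- Complex vectors with the Euclidean (Hermitian) norm. -/
abbrev C3 := EuclideanSpace ℂ (Fin 3)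

/-- The derivative of `f` at `x` in the `j`-th coordinate direction. -/
def pd (j : Fin 3) (f : R3 → ℝ) (x : R3) : ℝ := fderiv ℝ f x (Pi.single j 1)

/-- Periodicity with respect to the three unit vectors. -/
def Periodic3 {α : Type} (f : R3 → α) : Prop := ∀ (j : Fin 3) (x : R3), f (x + Pi.single j 1) = f x

/-- Smooth, periodic, divergence-free initial velocity. -/
structure IsData (u0 : R3 → R3) : Prop where
  smooth : ContDiff ℝ ∞ u0
  periodic : Periodic3 u0
  divFree : ∀ x, ∑ i, pd i (fun y => u0 y i) x = 0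

/-- `(u, p)` is a smooth periodic solution on `ℝ³ × I` of
`∂ₜ u + (u·∇) u + ∇ p = L u`, `div u = 0`, `u(·,0) = u0`,
where `L` maps the velocity field at time `t` to a vector field. -/
structure IsSolutionOn (L : (R3 → R3) → R3 → R3) (u0 : R3 → R3) (I : Set ℝ)
    (u : R3 → ℝ → R3) (p : R3 → ℝ → ℝ) : Prop where
  smooth_u : ContDiffOn ℝ ∞ (fun z : R3 × ℝ => u z.1 z.2) (univ ×ˢ I)
  smooth_p : ContDiffOn ℝ ∞ (fun z : R3 × ℝ => p z.1 z.2) (univ ×ˢ I)
  periodic_u : ∀ t ∈ I, Periodic3 (fun x => u x t)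
  periodic_p : ∀ t ∈ I, Periodic3 (fun x => p x t)
  momentum : ∀ x, ∀ t ∈ I, ∀ i,
    derivWithin (fun s => u x s i) I t + ∑ j, u x t j * pd j (fun y => u y t i) x
      + pd i (fun y => p y t) x = L (fun y => u y t) x i
  divFree : ∀ x, ∀ t ∈ I, ∑ i, pd i (fun y => u y t i) x = 0
  initial : ∀ x, u x 0 = u0 x

/-- The viscous term `ν Δ v`. -/
def viscous (ν : ℝ) (v : R3 → R3) (x : R3) : R3 :=
  fun i => ν * ∑ j, pd j (pd j (fun y => v y i)) x

/-- `|2 π k|`, the symbol of `Λ = (-Δ)^(1/2)`. -/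
def ax (k : Z3) : ℝ := 2 * Real.pi * √(∑ j, (k j : ℝ) ^ 2)

/-- The character `exp (2 π i k·x)`. -/
def ek (k : Z3) (x : R3) : ℂ :=
  Complex.exp (2 * Real.pi * Complex.I * ∑ j, (k j : ℂ) * (x j : ℂ))

/-- The `k`-th Fourier coefficient of a periodic vector field. -/
def fc (v : R3 → R3) (k : Z3) : C3 :=
  WithLp.toLp 2 fun i => ∫ x in Icc (0 : R3) 1, ek (-k) x * (v x i : ℂ)

/-- The symbol of the curl: `v ↦ 2 π i k × v`. -/
def curlS (k : Z3) (v : C3) : C3 :=
  WithLp.toLp 2 fun i =>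
    2 * Real.pi * Complex.I * crossProduct (fun j => (k j : ℂ)) (WithLp.ofLp v) i

/-- The homogeneous Sobolev norm of order `r` of a family of Fourier coefficients
(the mode `k = 0` is left out). -/
def hs (r : ℝ) (c : Z3 → C3) : ℝ :=
  √(∑' k, if k = 0 then 0 else ax k ^ (2 * r) * ‖c k‖ ^ 2)

end

end Pool.Agent.Work.MP_6bf1e5_an.B
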