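import Pool.Agent.Work.MP_6bf1e5_an.B.Energy

/-!
The trilinear estimate in the range `1 ≤ r < 5/2`, and the combined estimate.
-/

open Set Complex Filter Topology
open scoped InnerProductSpace ComplexConjugate

namespace Pool.Agent.Work.MP_6bf1e5_an.B

noncomputable section

/-- The kernel of the high-high to low interactions. -/
def hl (a c : Z3 → C3) (p k : Z3) : ℝ :=
  if ax k ≤ ax p then wm 0 a p ^ 2 * wm 1 c k else 0

lemma hl_nonneg (a c : Z3 → C3) (p k : Z3) : 0 ≤ hl a c p k := by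
  unfold hl
  split_ifs
  · exact mul_nonneg (sq_nonneg _) (wm_nonneg _ _ _)
  · exact le_rfl

lemma abs_re_tt_le' {s1 s2 r : ℝ} (h1 : s1 ≤ 0) (hr : 1 ≤ r) (hs : s1 + s2 = 1 - r)
    {a c : Z3 → C3} (da : DivFree a) (ra : IsReal a) (hc : ∀ k, (⟪c k, a k⟫_ℂ).im = 0)
    (z : Z3 × Z3) :
    |(tt a a c z).re| ≤ 2 ^ (r - 1) * (wm s1 a z.1 * wm s2 a z.2 * wm r c (z.1 + z.2) +
      wm s1 a z.2 * wm s2 a z.1 * wm r c (z.2 + z.1)) +
      (hl a c z.1 (z.1 + z.2) + hl a c z.2 (z.2 + z.1)) := by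
  obtain ⟨p, q⟩ := z
  have n1 := mul_nonneg (mul_nonneg (wm_nonneg s1 a p) (wm_nonneg s2 a q)) (wm_nonneg r c (p + q))
  have n2 := mul_nonneg (mul_nonneg (wm_nonneg s1 a q) (wm_nonneg s2 a p)) (wm_nonneg r c (q + p))
  have n3 : (0 : ℝ) < 2 ^ (r - 1) := by positivity
  have n4 := hl_nonneg a c p (p + q)
  have n5 := hl_nonneg a c q (q + p)
  have e : dt (a p) q = dt (a p) (p + q) := by rw [dt_add_right, da p, zero_add]
  dsimp only
  by_cases hp : p = 0
  · have h0 : (dt (a 0) q).im = 0 := by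
      have h := dt_cj (a 0) q
      rw [← ra 0, neg_zero] at h
      exact Complex.conj_eq_iff_im.mp h.symm
    have : (tt a a c (p, q)).re = 0 := by
      simp [tt, hp, h0, hc q]
    rw [this, abs_zero]; (clear * - n1 n2 n4 n5; positivity)
  by_cases hq : q = 0
  · have : tt a a c (p, q) = 0 := by simp [tt, hq]
    rw [this]; simp only [zero_re, abs_zero]; (clear * - n1 n2 n4 n5; positivity)
  by_cases hk : p + q = 0
  · have : tt a a c (p, q) = 0 := by simp [tt, e, hk]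
    rw [this]; simp only [zero_re, abs_zero]; (clear * - n1 n2 n4 n5; positivity)
  have b : |(tt a a c (p, q)).re| ≤ ax (p + q) * (‖a p‖ * ‖a q‖ * ‖c (p + q)‖) := by
    refine (Complex.abs_re_le_norm _).trans ?_
    rw [tt, norm_mul, norm_mul, Complex.norm_I, one_mul]
    dsimp only
    rw [e]
    calc ‖dt (a p) (p + q)‖ * ‖⟪c (p + q), a q⟫_ℂ‖
        ≤ (‖a p‖ * ax (p + q)) * (‖c (p + q)‖ * ‖a q‖) :=
          mul_le_mul (norm_dt_le _ _) (norm_inner_le_norm _ _) (norm_nonneg _)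
            (mul_nonneg (norm_nonneg _) (ax_nonneg _))
      _ = _ := by ring
  refine b.trans ?_
  have main : ∀ p q : Z3, p ≠ 0 → q ≠ 0 → p + q ≠ 0 → ax p ≤ ax q →
      ax (p + q) * (‖a p‖ * ‖a q‖ * ‖c (p + q)‖) ≤
        2 ^ (r - 1) * (wm s1 a p * wm s2 a q * wm r c (p + q)) ∨
      ax (p + q) * (‖a p‖ * ‖a q‖ * ‖c (p + q)‖) ≤ hl a c p (p + q) + hl a c q (q + p) := by
    intro p q hp hq hk hle
    have a1 := ax_pos hp
    have a2 := ax_pos hq
    have a3 := ax_pos hk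
    rcases le_total (ax q) (2 * ax (p + q)) with h | h
    · left
      have e1 : ax (p + q) = ax (p + q) ^ (1 - r) * ax (p + q) ^ r := by
        rw [← Real.rpow_add a3]; simp
      have e2 : ax (p + q) ^ (1 - r) ≤ 2 ^ (r - 1) * (ax p ^ s1 * ax q ^ s2) := by
        calc ax (p + q) ^ (1 - r) ≤ (ax q / 2) ^ (1 - r) :=
              Real.rpow_le_rpow_of_nonpos (by positivity) (by linarith only [h]) (by linarith only [hr])
          _ = 2 ^ (r - 1) * (ax q ^ s1 * ax q ^ s2) := by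
              rw [Real.div_rpow a2.le two_pos.le, ← Real.rpow_add a2, hs, div_eq_mul_inv,
                ← Real.rpow_neg two_pos.le, neg_sub, mul_comm]
          _ ≤ _ := by
              gcongr 2 ^ (r - 1) * (?_ * _)
              exact Real.rpow_le_rpow_of_nonpos a1 hle h1
      calc ax (p + q) * (‖a p‖ * ‖a q‖ * ‖c (p + q)‖)
          = ax (p + q) ^ (1 - r) * ax (p + q) ^ r * (‖a p‖ * ‖a q‖ * ‖c (p + q)‖) := by rw [← e1]
        _ ≤ 2 ^ (r - 1) * (ax p ^ s1 * ax q ^ s2) * ax (p + q) ^ r *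
            (‖a p‖ * ‖a q‖ * ‖c (p + q)‖) := by (clear * - a3 e2; gcongr)
        _ = _ := by simp only [wm, if_neg hp, if_neg hq, if_neg hk]; ring
    · right
      have t : ax q ≤ ax (p + q) + ax p := by
        have := ax_add_le (p + q) (-p)
        rwa [ax_neg, add_neg_cancel_comm] at this
      have l1 : ax (p + q) ≤ ax p := by linarith only [h, t]
      have l2 : ax (p + q) ≤ ax q := by linarith
      rw [add_comm q p]
      simp only [hl, if_pos l1, if_pos l2, wm, if_neg hp, if_neg hq, if_neg hk, Real.rpow_zero,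
        Real.rpow_one, one_mul]
      have : 0 ≤ ax (p + q) * ‖c (p + q)‖ := by (clear * - a3; positivity)
      nlinarith only [mul_nonneg this (sq_nonneg (‖a p‖ - ‖a q‖)), mul_nonneg this (sq_nonneg ‖a p‖),
        mul_nonneg this (sq_nonneg ‖a q‖)]
  rcases le_total (ax p) (ax q) with h | h
  · rcases main p q hp hq hk h with h | h <;> nlinarith only [n2, n3, n4, n5, h, n1]
  · have := main q p hq hp (by rwa [add_comm]) h
    rw [add_comm q p, mul_comm ‖a q‖] at this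
    rw [add_comm q p] at n2 n5 ⊢
    rcases this with h | h <;> nlinarith only [n1, n3, n4, n5, h, n2]

lemma hl_sum {r : ℝ} (hr : r < 5 / 2) : ∃ C : ℝ, 0 < C ∧ ∀ a c : Z3 → C3, Rapid c → ∀ p,
    ∑' k, hl a c p k ≤ C * hs r c * ht ((5 / 2 - r) / 2) a p := by
  obtain ⟨C, hC0, hC⟩ := exists_sum_mu_le (γ₁ := 5 - 2 * r) (γ₂ := 1) (by linarith) one_pos
  refine ⟨√C, by positivity, fun a c hc p => ?_⟩
  by_cases hp : p = 0
  · simp [hl, wm, ht, hp]
  have hR := ax_pos hp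
  have sm : Summable (mu (5 - 2 * r) 1 (ax p)) := summable_of_sum_le (mu_nonneg _ _ hR) (hC _ hR)
  have lm : ∑' k, mu (5 - 2 * r) 1 (ax p) k ≤ C := Real.tsum_le_of_sum_le (mu_nonneg _ _ hR) (hC _ hR)
  have s1 : Summable fun k => if ax k ≤ ax p then wm 1 c k else 0 := by
    refine Summable.of_nonneg_of_le (fun k => ?_) (fun k => ?_) (hc.summable_wm 1) <;> split_ifs
    exacts [wm_nonneg _ _ _, le_rfl, le_rfl, wm_nonneg _ _ _]
  have h1 : ∑' k, (if ax k ≤ ax p then wm 1 c k else 0) ≤ √(ax p ^ (5 - 2 * r) * C) * √(hq r c) := by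
    refine le_sqrt_of_forall (by positivity) (hq_nonneg _ _) fun l hl => ?_
    refine le_trans (hasSum_le (fun k => ?_) s1.hasSum
      ((((sm.hasSum.mul_left (ax p ^ (5 - 2 * r))).mul_left l).add
        ((hc.summable_ht r).hasSum.div_const l)).div_const 2)) (by unfold hq; gcongr)
    have m0 := mu_nonneg (5 - 2 * r) 1 hR k
    have g0 := ht_nonneg r c k
    split_ifs with hle
    · have b : wm 1 c k ^ 2 ≤ ax p ^ (5 - 2 * r) * mu (5 - 2 * r) 1 (ax p) k * ht r c k := by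
        rw [wm_sq]
        unfold ht mu
        split_ifs with hk
        · simp
        · have k0 := ax_pos hk
          have m : (ax k / ax p) ^ (5 - 2 * r) ≤ (ax p / ax k) ^ (1 : ℝ) :=
            (Real.rpow_le_one (by positivity) ((div_le_one hR).mpr hle) (by linarith)).trans
              (by rw [Real.rpow_one]; exact (one_le_div k0).mpr hle)
          rw [min_eq_left m, ← mul_assoc]
          refine le_of_eq ?_
          congr 1
          simp only [Real.rpow_def_of_pos k0, Real.rpow_def_of_pos hR,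
            Real.rpow_def_of_pos (div_pos k0 hR), ← Real.exp_add, Real.log_div k0.ne' hR.ne']
          congr 1; ring
      set m := ax p ^ (5 - 2 * r) * mu (5 - 2 * r) 1 (ax p) k
      set g := ht r c k
      have m1 : 0 ≤ m := by positivity
      refine (pow_le_pow_iff_left₀ (wm_nonneg _ _ _) (by (clear * - hR hl m0 g0; positivity)) two_ne_zero).mp (b.trans ?_)
      have e1 : ((l * m + g / l) / 2) ^ 2 - m * g = ((l * m - g / l) / 2) ^ 2 := by
        field_simp; ring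
      linarith only [e1, sq_nonneg ((l * m - g / l) / 2)]
    · (clear * - hR hl m0 g0; positivity)
  have e : ∑' k, hl a c p k = wm 0 a p ^ 2 * ∑' k, (if ax k ≤ ax p then wm 1 c k else 0) := by
    rw [← tsum_mul_left]
    refine tsum_congr fun k => ?_
    unfold hl; split_ifs <;> simp
  rw [e]
  refine (mul_le_mul_of_nonneg_left h1 (sq_nonneg _)).trans (le_of_eq ?_)
  have e2 : √(ax p ^ (5 - 2 * r)) = ax p ^ (2 * ((5 / 2 - r) / 2)) := by
    rw [Real.sqrt_eq_rpow, ← Real.rpow_mul hR.le]; congr 1; ring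
  rw [Real.sqrt_mul (by positivity), e2, hs_eq]
  simp only [wm, ht, if_neg hp, Real.rpow_zero, one_mul]
  ring

lemma low_high {σ β θ₁ θ₂ : ℝ} (h1 : 0 < θ₁) (h2 : θ₁ < β) (h3 : 0 ≤ θ₂) (h4 : θ₂ ≤ β) (r : ℝ) :
    ∃ C : ℝ, 0 < C ∧ ∀ a c : Z3 → C3, Rapid a → Rapid c → ∀ R : ℝ, 0 < R →
      (Summable fun p : Z3 × Z3 =>
        wm (σ + θ₁ - 3 / 2) a p.1 * wm (σ + θ₂) a p.2 * wm r c (p.1 + p.2)) ∧
      ∑' p : Z3 × Z3, wm (σ + θ₁ - 3 / 2) a p.1 * wm (σ + θ₂) a p.2 * wm r c (p.1 + p.2) ≤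
        C * hs r c * (R ^ (θ₁ + θ₂ - 2 * β) * (R ^ (2 * β) * hq σ a + hq (σ + β) a)) := by
  obtain ⟨C, hC0, hC⟩ := exists_sum_mu_le (γ₁ := 2 * θ₁) (γ₂ := 2 * β - 2 * θ₁) (by linarith)
    (by linarith)
  refine ⟨√C, by positivity, fun a c ha hc R hR => ?_⟩
  set W := R ^ (2 * β) * hq σ a + hq (σ + β) a with hW
  have W0 : 0 ≤ W := by have := hq_nonneg σ a; have := hq_nonneg (σ + β) a; positivity
  have sW : HasSum (fun k => R ^ (2 * β) * ht σ a k + ht (σ + β) a k) W :=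
    ((ha.summable_ht σ).hasSum.mul_left _).add (ha.summable_ht (σ + β)).hasSum
  set x := wm (σ + θ₁ - 3 / 2) a
  set y := wm (σ + θ₂) a
  set z := wm r c
  have sx : Summable x := ha.summable_wm _
  have sy : Summable fun k => y k ^ 2 := by simpa only [y, wm_sq] using ha.summable_ht _
  have sz : Summable fun k => z k ^ 2 := by simpa only [z, wm_sq] using hc.summable_ht _
  have hX : ∑' k, x k ≤ √C * √(R ^ (2 * θ₁ - 2 * β) * W) := by
    have sm : Summable (mu (2 * θ₁) (2 * β - 2 * θ₁) R) :=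
      summable_of_sum_le (mu_nonneg _ _ hR) (hC R hR)
    have lm : ∑' k, mu (2 * θ₁) (2 * β - 2 * θ₁) R k ≤ C :=
      Real.tsum_le_of_sum_le (mu_nonneg _ _ hR) (hC R hR)
    refine le_sqrt_of_forall hC0.le (by positivity) fun l hl => ?_
    refine le_trans (hasSum_le (fun k => ?_) sx.hasSum
      (((sm.hasSum.mul_left l).add ((sW.mul_left (R ^ (2 * θ₁ - 2 * β))).div_const l)).div_const 2))
      (by gcongr)
    have b := wm_sq_le_mu (σ := σ) (β := β) (θ := θ₁) hR a k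
    have m0 := mu_nonneg (2 * θ₁) (2 * β - 2 * θ₁) hR k
    set m := mu (2 * θ₁) (2 * β - 2 * θ₁) R k
    set g := R ^ (2 * θ₁ - 2 * β) * (R ^ (2 * β) * ht σ a k + ht (σ + β) a k)
    have g0 : 0 ≤ g := by
      have := ht_nonneg σ a k; have := ht_nonneg (σ + β) a k; positivity
    refine (pow_le_pow_iff_left₀ (wm_nonneg _ _ _) (by (clear * - hl m0 g0; positivity)) two_ne_zero).mp (b.trans ?_)
    have e1 : ((l * m + g / l) / 2) ^ 2 - m * g = ((l * m - g / l) / 2) ^ 2 := by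
      field_simp; ring
    linarith only [e1, sq_nonneg ((l * m - g / l) / 2)]
  have hY : ∑' k, y k ^ 2 ≤ R ^ (2 * θ₂ - 2 * β) * W := by
    refine hasSum_le (fun k => ?_) sy.hasSum (sW.mul_left _)
    simp only [y, wm_sq]
    exact ht_interp hR h3 h4 a k
  have hZ : √(∑' k, z k ^ 2) = hs r c := by simp only [z, wm_sq]; rfl
  have x0 : ∀ k, 0 ≤ x k := wm_nonneg _ _
  have y0 : ∀ k, 0 ≤ y k := wm_nonneg _ _
  have z0 : ∀ k, 0 ≤ z k := wm_nonneg _ _
  have sf : Summable fun p : Z3 × Z3 => x p.1 * y p.2 * z (p.1 + p.2) := by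
    have h := (sx.mul_of_nonneg (ha.summable_wm (σ + θ₂)) x0 y0).mul_right (∑' k, z k)
    refine Summable.of_nonneg_of_le (fun p => mul_nonneg (mul_nonneg (x0 _) (y0 _)) (z0 _))
      (fun p => ?_) h
    exact mul_le_mul_of_nonneg_left ((hc.summable_wm r).le_tsum _ fun k _ => z0 k)
      (mul_nonneg (x0 _) (y0 _))
  refine ⟨sf, ?_⟩
  have hf := young_l1_l2_l2 x0 sx sy sz sf fun _ => le_rfl
  rw [hZ] at hf
  have hs0 := hs_nonneg r c
  have e : √(R ^ (2 * θ₁ - 2 * β) * W) * √(R ^ (2 * θ₂ - 2 * β) * W) =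
      R ^ (θ₁ + θ₂ - 2 * β) * W := by
    rw [← Real.sqrt_mul (by positivity)]
    have : R ^ (2 * θ₁ - 2 * β) * W * (R ^ (2 * θ₂ - 2 * β) * W) =
        (R ^ (θ₁ + θ₂ - 2 * β) * W) ^ 2 := by
      have : R ^ (2 * θ₁ - 2 * β) * R ^ (2 * θ₂ - 2 * β) =
          R ^ (θ₁ + θ₂ - 2 * β) * R ^ (θ₁ + θ₂ - 2 * β) := by
        rw [← Real.rpow_add hR, ← Real.rpow_add hR]; congr 1; ring
      calc _ = (R ^ (2 * θ₁ - 2 * β) * R ^ (2 * θ₂ - 2 * β)) * W ^ 2 := by ring
        _ = _ := by rw [this]; ring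
    rw [this, Real.sqrt_sq (by positivity)]
  calc _ ≤ √C * √(R ^ (2 * θ₁ - 2 * β) * W) * (√(R ^ (2 * θ₂ - 2 * β) * W) * hs r c) := by
        refine hf.trans ?_
        (clear * - hC0 hX hY hs0; gcongr)
    _ = √C * hs r c * (√(R ^ (2 * θ₁ - 2 * β) * W) * √(R ^ (2 * θ₂ - 2 * β) * W)) := by ring
    _ = _ := by rw [e]

/-- The trilinear estimate for every `r < 5/2`. -/
theorem tri_gen {σ β θ₁ θ₂ r : ℝ} (h1 : 0 < θ₁) (h2 : θ₁ < β) (h3 : 0 ≤ θ₂) (h4 : θ₂ ≤ β)
    (h5 : σ + θ₁ ≤ 3 / 2) (h6 : r < 5 / 2) (h7 : θ₁ + θ₂ = 5 / 2 - r - 2 * σ) :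
    ∃ C : ℝ, 0 < C ∧ ∀ a c : Z3 → C3, Rapid a → Rapid c → DivFree a → IsReal a →
      (∀ k, (⟪c k, a k⟫_ℂ).im = 0) → ∀ R : ℝ, 0 < R →
      |(TT a a c).re| ≤
        C * hs r c * (R ^ (θ₁ + θ₂ - 2 * β) * (R ^ (2 * β) * hq σ a + hq (σ + β) a)) := by
  rcases le_total r 1 with hr | hr
  · exact tri_est h1 h2 h3 h4 h5 hr h7
  obtain ⟨C, hC0, hC⟩ := low_high (σ := σ) h1 h2 h3 h4 r
  obtain ⟨C', hC0', hC'⟩ := hl_sum h6
  refine ⟨2 ^ (r - 1) * 2 * C + 2 * C', by positivity, fun a c ha hc da ra hi R hR => ?_⟩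
  obtain ⟨sf, hf⟩ := hC a c ha hc R hR
  set W := R ^ (θ₁ + θ₂ - 2 * β) * (R ^ (2 * β) * hq σ a + hq (σ + β) a) with hW
  have sf' := ((Equiv.prodComm Z3 Z3).hasSum_iff).mpr sf.hasSum
  have sg : Summable fun z : Z3 × Z3 => hl a c z.1 z.2 := by
    refine Summable.of_nonneg_of_le (fun z => hl_nonneg _ _ _ _) (fun z => ?_)
      ((ha.summable_ht 0).mul_of_nonneg (hc.summable_wm 1) (ht_nonneg _ _) (wm_nonneg _ _))
    unfold hl
    split_ifs
    · rw [wm_sq]
    · exact mul_nonneg (ht_nonneg _ _ _) (wm_nonneg _ _ _)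
  have hg : ∑' z : Z3 × Z3, hl a c z.1 z.2 ≤ C' * hs r c * W := by
    rw [sg.tsum_prod]
    have sW : HasSum (fun k => R ^ (2 * β) * ht σ a k + ht (σ + β) a k) _ :=
      ((ha.summable_ht σ).hasSum.mul_left _).add (ha.summable_ht (σ + β)).hasSum
    refine hasSum_le (fun p => (hC' a c hc p).trans ?_) sg.prod.hasSum
      ((sW.mul_left (R ^ (θ₁ + θ₂ - 2 * β))).mul_left (C' * hs r c))
    have := ht_interp (σ := σ) (β := β) (θ := (θ₁ + θ₂) / 2) hR (by linarith only [h1, h3]) (by linarith only [h2, h4]) a p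
    rw [show σ + (θ₁ + θ₂) / 2 = (5 / 2 - r) / 2 by linarith only [h7],
      show 2 * ((θ₁ + θ₂) / 2) = θ₁ + θ₂ by ring] at this
    exact mul_le_mul_of_nonneg_left this (mul_nonneg hC0'.le (hs_nonneg _ _))
  let e : Z3 × Z3 ≃ Z3 × Z3 :=
    { toFun := fun z => (z.1, z.1 + z.2), invFun := fun z => (z.1, z.2 - z.1),
      left_inv := fun z => by simp, right_inv := fun z => by simp }
  have g1 := (e.hasSum_iff).mpr sg.hasSum
  have g2 := ((Equiv.prodComm Z3 Z3).hasSum_iff).mpr g1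
  obtain ⟨M1, hM1⟩ := ha 1
  obtain ⟨M0, hM0⟩ := hc 0
  have st := summable_norm_tt (hM1.mono (Nat.zero_le 1)) hM1 hM0.norm_le
  have e' : (TT a a c).re = ∑' p, (tt a a c p).re := Complex.reCLM.map_tsum st.of_norm
  have hT := tsum_of_norm_bounded (f := fun p => (tt a a c p).re)
    (((sf.hasSum.add sf').mul_left (2 ^ (r - 1))).add (g1.add g2)) fun p =>
      abs_re_tt_le' (by linarith only [h5]) hr (by linarith only [h7]) da ra hi p
  rw [← e', Real.norm_eq_abs] at hT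
  refine hT.trans ?_
  have : (0 : ℝ) < 2 ^ (r - 1) := by positivity
  nlinarith only [hf, hg, this]

end

end Pool.Agent.Work.MP_6bf1e5_an.B
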