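import Pool.Agent.Work.MP_6bf1e5_an.B.Hel
import Pool.Agent.Work.MP_6bf1e5_an.B.Smooth

/-!
The final statements in terms of smooth periodic solutions.
-/

open Set Complex Filter Topology MeasureTheory
open scoped InnerProductSpace ComplexConjugate

namespace Pool.Agent.Work.MP_6bf1e5_an.B

noncomputable section

lemma dt_eq_zero_iff (v : C3) (k : Z3) : dt v k = 0 ↔ ∑ j, (k j : ℂ) * v j = 0 := by
  have : dt v k = 2 * Real.pi * ∑ j, (k j : ℂ) * v j := by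
    rw [dt_eq, Finset.mul_sum]; exact Finset.sum_congr rfl fun j _ => by ring
  rw [this, mul_eq_zero, or_iff_right]
  exact mul_ne_zero two_ne_zero (by exact_mod_cast Real.pi_ne_zero)

lemma Ico_extend {T : ℝ} : ∀ t ∈ Ico (0 : ℝ) T, ∃ S, t < S ∧ Icc 0 S ⊆ Ico 0 T := fun t ht =>
  ⟨(t + T) / 2, by linarith [ht.2], Icc_subset_Ico_right (by linarith [ht.2])⟩

/-- A solution with integrable squared `H^{3/2}` norm can be continued. -/
theorem continuation {ν T : ℝ} (hν : 0 < ν) (hT : 0 < T) {u0 : R3 → R3} {u : R3 → ℝ → R3}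
    {p : R3 → ℝ → ℝ} (h : IsSolutionOn (viscous ν) u0 (Ico 0 T) u p) {K : ℝ} (hK : 0 ≤ K)
    (hI : ∀ S ∈ Ico 0 T, ∫⁻ t in Ioo 0 S, ENNReal.ofReal (hq (3 / 2) (fc fun x => u x t)) ≤
      ENNReal.ofReal K) :
    ∃ T', T < T' ∧ ∃ (u' : R3 → ℝ → R3) (p' : R3 → ℝ → ℝ),
      IsSolutionOn (viscous ν) u0 (Ico 0 T') u' p' ∧ ∀ x, ∀ t ∈ Ico 0 T, u' x t = u x t := by
  have hA := diss_visc hν
  have hb : ∀ S, S < T → IsSol (visc ν) (fun s => fc fun x => u x s) 0 S := fun S hS =>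
    h.isSol_viscous (uniqueDiffOn_Ico 0 T) (Icc_subset_Ico_right hS)
  have z : (0 : ℝ) ∈ Ico 0 T := ⟨le_rfl, hT⟩
  obtain ⟨r0, r1, r2, -⟩ := (h.isData_slice z).fourier
  obtain ⟨a, a0, ha⟩ := hA.maximal r2 r1 r0
  have uniq : ∀ T', (∀ S, S < T' → IsSol (visc ν) a 0 S) → ∀ t ∈ Ico 0 T, t < T' →
      a t = fc fun x => u x t := fun T' h' t ht ht' =>
    (h' t ht').unique hA (hb t ht.2) a0 t ⟨ht.1, le_rfl⟩
  obtain ⟨T', hT', h'⟩ : ∃ T', T < T' ∧ ∀ S, S < T' → IsSol (visc ν) a 0 S := by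
    rcases ha with ha | ⟨Ts, hTs, ha, hl⟩
    · exact ⟨T + 1, lt_add_one T, fun S _ => ha S⟩
    · rcases lt_or_ge T Ts with h1 | h1
      · exact ⟨Ts, h1, ha⟩
      · refine (hA.no_blowup hTs hK ha hl fun S hS => ?_).elim
        refine le_trans (le_of_eq ?_) (hI S ⟨hS.1, hS.2.trans_le h1⟩)
        refine setLIntegral_congr_fun measurableSet_Ioo fun t ht => ?_
        have := ht.2.trans hS.2
        simp only [uniq Ts ha t ⟨ht.1.le, this.trans_le h1⟩ this]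
  obtain ⟨u', p', hs, hd, hsol⟩ := hA.classical (J := Ico 0 T') Ico_subset_Ici_self Ico_extend
    fun S hS => h' S hS.2
  have eq : ∀ x, ∀ t ∈ Ico 0 T, u' x t = u x t := by
    intro x t ht
    funext i
    have h1 := hs t ⟨ht.1, ht.2.trans hT'⟩ x i
    rw [uniq T' h' t ht (ht.2.trans hT')] at h1
    exact_mod_cast h1.unique ((h.isData_slice ht).fourier.2.2.2 x i)
  refine ⟨T', hT', u', p', hsol _ _ (fun x => (eq x 0 z).trans (h.initial x)) fun t ht x i => ?_, eq⟩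
  have := hasSum_viscous ν (hd t ht) x i
  rwa [fc_of_hasSum ((h' t ht.2).rapid ⟨ht.1, le_rfl⟩).summable_norm (hs t ht)] at this

theorem criterion {ν T σ q c : ℝ} (hν : 0 < ν) (hT : 0 < T) (hσ : 1 / 2 ≤ σ) (hσ' : σ < 3 / 2)
    (hq1 : 1 < q) (hq2 : σ - 1 / 2 ≤ 2 / q) {Φ : Z3 → C3 →L[ℂ] C3} (hΦ : Mult Φ) (hc : 0 < c)
    (coer : ∀ k, k ≠ 0 → ∀ v : C3, ∑ j, (k j : ℂ) * v j = 0 →
      c * ax k ^ (2 * σ) * ‖v‖ ^ 2 ≤ (⟪Φ k v, v⟫_ℂ).re)
    {u0 : R3 → R3} {u : R3 → ℝ → R3} {p : R3 → ℝ → ℝ}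
    (h : IsSolutionOn (viscous ν) u0 (Ico 0 T) u p) (α β : ℝ → ℝ)
    (hI : ∫⁻ t in Ioo 0 T, ENNReal.ofReal
      (hs (1 / 2 + 2 / q - 2 * σ) (tf Φ (α t) (β t) (fc fun x => u x t)) ^ q /
        Real.log (Real.exp 1 + hs σ (fc fun x => u x t))) < ⊤) :
    ∃ T', T < T' ∧ ∃ (u' : R3 → ℝ → R3) (p' : R3 → ℝ → ℝ),
      IsSolutionOn (viscous ν) u0 (Ico 0 T') u' p' ∧ ∀ x, ∀ t ∈ Ico 0 T, u' x t = u x t := by
  obtain ⟨K, K0, hK⟩ := crit_fourier hν hσ hσ' hq1 hq2 hΦ hc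
    (fun k hk v hv => coer k hk v ((dt_eq_zero_iff v k).mp hv))
    (a := fun s => fc fun x => u x s) (Ts := T)
    (fun S hS => h.isSol_viscous (uniqueDiffOn_Ico 0 T) (Icc_subset_Ico_right hS)) α β hI
  exact continuation hν hT h K0 hK

lemma hasSum_real {c : Z3 → C3} (hc : Rapid c) (rc : IsReal c) (x : R3) (i : Fin 3) :
    HasSum (fun k => ek k x * c k i) (((∑' k, ek k x * c k i).re : ℝ) : ℂ) := by
  have s : Summable fun k => ek k x * c k i := by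
    refine Summable.of_norm_bounded hc.summable_norm fun k => ?_
    rw [norm_mul, norm_ek_eq, one_mul]
    exact PiLp.norm_apply_le _ _
  have e : conj (∑' k, ek k x * c k i) = ∑' k, ek k x * c k i := by
    rw [Complex.conj_tsum, ← (Equiv.neg Z3).tsum_eq]
    refine tsum_congr fun k => ?_
    simp only [Equiv.neg_apply, map_mul, ek_neg_index, rc k, Complex.conj_conj]
    simp
  rw [Complex.conj_eq_iff_re.mp e]
  exact s.hasSum

theorem global_of_bound {ν : ℝ} {A : Z3 → C3 →L[ℂ] C3} (hA : Diss ν A)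
    (hb : ∀ (a : ℝ → Z3 → C3) (Ts : ℝ), (∀ T, T < Ts → IsSol A a 0 T) → ∃ K : ℝ, 0 ≤ K ∧
      ∀ T ∈ Ico 0 Ts, ∫⁻ t in Ioo 0 T, ENNReal.ofReal (hq (3 / 2) (a t)) ≤ ENNReal.ofReal K)
    {L : (R3 → R3) → R3 → R3}
    (hL : ∀ v x i, L v x i = -(∑' k, ek k x * (A k (fc v k)) i).re)
    {u0 : R3 → R3} (h0 : IsData u0) : ∃ u p, IsSolutionOn L u0 (Ici 0) u p := by
  obtain ⟨r0, r1, r2, r3⟩ := h0.fourier
  obtain ⟨a, a0, ha⟩ := hA.maximal r2 r1 r0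
  have ha' : ∀ T, IsSol A a 0 T := by
    rcases ha with ha | ⟨Ts, hTs, ha, hl⟩
    · exact ha
    · obtain ⟨K, K0, hK⟩ := hb a Ts ha
      exact (hA.no_blowup hTs K0 ha hl hK).elim
  obtain ⟨u, p, hs, -, hsol⟩ := hA.classical (J := Ici 0) subset_rfl
    (fun t _ => ⟨t + 1, lt_add_one t, Icc_subset_Ici_self⟩) fun T _ => ha' T
  refine ⟨u, p, hsol _ _ (fun x => ?_) fun t ht x i => ?_⟩
  · funext i
    have h1 := hs 0 (mem_Ici.mpr le_rfl) x i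
    rw [a0] at h1
    exact_mod_cast h1.unique (r3 x i)
  · have tm : t ∈ Icc 0 t := ⟨ht, le_rfl⟩
    have rp := (ha' t).rapid tm
    obtain ⟨C, m, hC, hg⟩ := hA.growth
    rw [hL, fc_of_hasSum rp.summable_norm (hs t ht)]
    have := (hasSum_real (rp.map hC hg) (fun k => by
      rw [(ha' t).real t tm k]; exact hA.real k _) x i).neg
    simpa using this

theorem helical {ν β C : ℝ} {m : ℕ} {dp dm : Z3 → ℝ} (hν : 0 < ν) (hβ : 1 ≤ β)
    (e1 : ∀ k, dp (-k) = dp k) (e2 : ∀ k, dm (-k) = dm k)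
    (g1 : ∀ k, dp k ≤ C * (1 + ax k) ^ m) (g2 : ∀ k, dm k ≤ C * (1 + ax k) ^ m)
    (l1 : ∀ k, ν * ax k ^ (2 * β) ≤ dp k) (l2 : ∀ k, ν * ax k ^ (2 * β) ≤ dm k)
    (l3 : (∀ k, ν * ax k ^ (5 - 2 * β) / Real.log (Real.exp 1 + ax k) ≤ dp k) ∨
      ∀ k, ν * ax k ^ (5 - 2 * β) / Real.log (Real.exp 1 + ax k) ≤ dm k)
    {u0 : R3 → R3} (h0 : IsData u0) : ∃ u p, IsSolutionOn (helDiss dp dm) u0 (Ici 0) u p := by
  rcases l3 with l3 | l3
  · have hA := diss_AH (s := 1) hν hβ abs_one e1 e2 g1 g2 l1 l2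
    exact global_of_bound hA (fun a Ts ha => hel_fourier hA hβ abs_one l1 l2 l3 ha)
      (fun v x i => rfl) h0
  · have hs : |(-1 : ℝ)| = 1 := by simp
    have hA := diss_AH (s := -1) hν hβ hs e2 e1 g2 g1 l2 l1
    refine global_of_bound hA (fun a Ts ha => hel_fourier hA hβ hs l2 l1 l3 ha)
      (fun v x i => ?_) h0
    simp only [helDiss, AH_apply, neg_neg, add_comm]

end

end Pool.Agent.Work.MP_6bf1e5_an.B
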