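import Pool.Agent.Work.MP_6bf1e5_an.B.Defs

/-!
Helical projections and dissipation operators acting separately on the two helical sectors.
-/

namespace Pool.Agent.Work.MP_6bf1e5_an.B

noncomputable section

/-- For `s = 1` or `s = -1`, the symbol of the helical projection `(1 + s Λ⁻¹ curl) / 2`
on divergence-free fields. -/
def hp (s : ℝ) (k : Z3) (v : C3) : C3 := (2⁻¹ : ℂ) • (v + ((s / ax k : ℝ) : ℂ) • curlS k v)

/-- The operator `-(dp(D) P₊ + dm(D) P₋)`: the Fourier multiplier with symbol `-dp` on the positive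
helical sector and `-dm` on the negative one. -/
def helDiss (dp dm : Z3 → ℝ) (v : R3 → R3) (x : R3) : R3 := fun i =>
  -(∑' k, ek k x * ((dp k : ℂ) • hp 1 k (fc v k) + (dm k : ℂ) • hp (-1) k (fc v k)) i).re

end

end Pool.Agent.Work.MP_6bf1e5_an.B
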