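import Pool.Agent.Work.MP_6bf1e5_an.B.Crit
import Pool.Agent.Work.MP_6bf1e5_an.B.HelDefs

/-!
A priori bounds for the equations with helical hyperdissipation, on the Fourier side.
-/

open Set Complex Filter Topology MeasureTheory
open scoped InnerProductSpace ComplexConjugate

namespace Pool.Agent.Work.MP_6bf1e5_an.B

noncomputable section

/-- The helical projection as a linear map. -/
def hpL (s : ℝ) (k : Z3) : C3 →L[ℂ] C3 :=
  (2⁻¹ : ℂ) • (ContinuousLinearMap.id ℂ C3 + ((s / ax k : ℝ) : ℂ) • curlL k)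

lemma hpL_apply (s : ℝ) (k : Z3) (v : C3) : hpL s k v = hp s k v := rfl

/-- The dissipation symbol. -/
def AH (d1 d2 : Z3 → ℝ) (s : ℝ) (k : Z3) : C3 →L[ℂ] C3 :=
  (d1 k : ℂ) • hpL s k + (d2 k : ℂ) • hpL (-s) k

lemma AH_apply (d1 d2 : Z3 → ℝ) (s : ℝ) (k : Z3) (v : C3) :
    AH d1 d2 s k v = (d1 k : ℂ) • hp s k v + (d2 k : ℂ) • hp (-s) k v := rfl

/-- The energy in one helical sector. -/
def he (s : ℝ) (k : Z3) (v : C3) : ℝ := (‖v‖ ^ 2 + s / ax k * (⟪v, curlS k v⟫_ℂ).re) / 2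

lemma re_inner_hp (s : ℝ) (k : Z3) (v : C3) : (⟪v, hp s k v⟫_ℂ).re = he s k v := by
  have : (2⁻¹ : ℂ) = ((2⁻¹ : ℝ) : ℂ) := by simp
  rw [hp, inner_smul_right, this, Complex.re_ofReal_mul, inner_add_right, inner_smul_right,
    Complex.add_re, Complex.re_ofReal_mul, re_inner_self, he]
  ring

lemma he_add (s : ℝ) (k : Z3) (v : C3) : he s k v + he (-s) k v = ‖v‖ ^ 2 := by
  unfold he; ring

lemma norm_smul_curl_le {s : ℝ} (hs : |s| = 1) (k : Z3) (v : C3) :
    ‖((s / ax k : ℝ) : ℂ) • curlS k v‖ ≤ ‖v‖ := by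
  by_cases hk : k = 0
  · simp [hk]
  · have k0 := ax_pos hk
    rw [norm_smul, Complex.norm_real, Real.norm_eq_abs, abs_div, hs, abs_of_pos k0, one_div,
      inv_mul_le_iff₀ k0]
    exact norm_curlS_le k v

lemma norm_hp_sq_le {s : ℝ} (hs : |s| = 1) (k : Z3) (v : C3) : ‖hp s k v‖ ^ 2 ≤ he s k v := by
  have h1 := norm_smul_curl_le hs k v
  have h2 := @norm_add_sq ℂ _ _ _ _ v (((s / ax k : ℝ) : ℂ) • curlS k v)
  rw [inner_smul_right, RCLike.re_to_complex, Complex.re_ofReal_mul] at h2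
  rw [hp, norm_smul, mul_pow, h2, he]
  have h3 := pow_le_pow_left₀ (norm_nonneg _) h1 2
  have h4 : ‖(2⁻¹ : ℂ)‖ = 2⁻¹ := by simp
  rw [h4]; linarith only [h3]

lemma he_nonneg {s : ℝ} (hs : |s| = 1) (k : Z3) (v : C3) : 0 ≤ he s k v :=
  (sq_nonneg _).trans (norm_hp_sq_le hs k v)

lemma norm_hp_le {s : ℝ} (hs : |s| = 1) (k : Z3) (v : C3) : ‖hp s k v‖ ≤ ‖v‖ := by
  have h1 := norm_hp_sq_le hs k v
  have h2 := he_add s k v
  have h3 := he_nonneg (s := -s) (by rwa [abs_neg]) k v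
  exact (pow_le_pow_iff_left₀ (norm_nonneg _) (norm_nonneg _) two_ne_zero).mp (by linarith)

lemma re_inner_AH (d1 d2 : Z3 → ℝ) (s : ℝ) (k : Z3) (v : C3) :
    (⟪v, AH d1 d2 s k v⟫_ℂ).re = d1 k * he s k v + d2 k * he (-s) k v := by
  rw [AH_apply, inner_add_right, inner_smul_right, inner_smul_right, Complex.add_re,
    Complex.re_ofReal_mul, Complex.re_ofReal_mul, re_inner_hp, re_inner_hp]

lemma dt_hp (s : ℝ) {k : Z3} {v : C3} (h : dt v k = 0) : dt (hp s k v) k = 0 := by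
  rw [hp, dt_smul_left, dt_add_left, dt_smul_left, dt_curlS, h]; simp

lemma hp_cj (s : ℝ) (k : Z3) (v : C3) : hp s (-k) (cj v) = cj (hp s k v) := by
  rw [hp, hp, cj_smul, map_add, cj_smul, curlS_cj, ax_neg, Complex.conj_ofReal]
  simp [map_ofNat]

lemma ax_sq_le_rpow {β : ℝ} (hβ : 1 ≤ β) (k : Z3) : ax k ^ 2 ≤ ax k ^ (2 * β) := by
  by_cases hk : k = 0
  · simp [hk, Real.rpow_nonneg]
  · rw [← Real.rpow_two]
    exact Real.rpow_le_rpow_of_exponent_le (one_le_ax hk) (by linarith)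

lemma diss_AH {ν β s C : ℝ} {m : ℕ} {d1 d2 : Z3 → ℝ} (hν : 0 < ν) (hβ : 1 ≤ β) (hs : |s| = 1)
    (e1 : ∀ k, d1 (-k) = d1 k) (e2 : ∀ k, d2 (-k) = d2 k)
    (g1 : ∀ k, d1 k ≤ C * w k ^ m) (g2 : ∀ k, d2 k ≤ C * w k ^ m)
    (l1 : ∀ k, ν * ax k ^ (2 * β) ≤ d1 k) (l2 : ∀ k, ν * ax k ^ (2 * β) ≤ d2 k) :
    Diss ν (AH d1 d2 s) := by
  have hs' : |(-s)| = 1 := by rwa [abs_neg]
  have p0 : ∀ k, 0 ≤ ν * ax k ^ (2 * β) := fun k => mul_nonneg hν.le (Real.rpow_nonneg (ax_nonneg k) _)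
  have hC : 0 ≤ C := by simpa [w] using ((p0 0).trans (l1 0)).trans (g1 0)
  refine ⟨hν, fun k v _ => ?_, ⟨2 * C, m, by positivity, fun k v => ?_⟩, fun k v h => ?_,
    fun k v => ?_⟩
  · rw [re_inner_AH, ← he_add s k v]
    have := mul_le_mul_of_nonneg_left (ax_sq_le_rpow hβ k) hν.le
    have a1 := mul_le_mul_of_nonneg_right (this.trans (l1 k)) (he_nonneg hs k v)
    have a2 := mul_le_mul_of_nonneg_right (this.trans (l2 k)) (he_nonneg hs' k v)
    linarith
  · rw [AH_apply]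
    refine (norm_add_le _ _).trans ?_
    rw [norm_smul, norm_smul, Complex.norm_real, Complex.norm_real,
      Real.norm_of_nonneg ((p0 k).trans (l1 k)), Real.norm_of_nonneg ((p0 k).trans (l2 k))]
    have c0 : 0 ≤ C * w k ^ m := ((p0 k).trans (l1 k)).trans (g1 k)
    have a1 := mul_le_mul (g1 k) (norm_hp_le hs k v) (norm_nonneg _) c0
    have a2 := mul_le_mul (g2 k) (norm_hp_le hs' k v) (norm_nonneg _) c0
    linarith
  · rw [AH_apply, dt_add_left, dt_smul_left, dt_smul_left, dt_hp s h, dt_hp (-s) h]; simp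
  · rw [AH_apply, AH_apply, map_add, cj_smul, cj_smul, hp_cj, hp_cj, e1, e2, Complex.conj_ofReal,
      Complex.conj_ofReal]

lemma fenchel {x l : ℝ} (hx : 0 ≤ x) (hl : 0 ≤ l) :
    l * Real.log (Real.exp 1 + x) ≤ x + l * Real.log (Real.exp 1 + l) := by
  have e0 := Real.exp_pos 1
  have h1 := Real.log_le_sub_one_of_pos (x := (Real.exp 1 + x) / (Real.exp 1 + l)) (by positivity)
  rw [Real.log_div (by positivity) (by positivity)] at h1
  have h2 : l * ((Real.exp 1 + x) / (Real.exp 1 + l) - 1) ≤ x := by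
    have : l * ((Real.exp 1 + x) / (Real.exp 1 + l) - 1) = l * (x - l) / (Real.exp 1 + l) := by
      field_simp; ring
    rw [this, div_le_iff₀ (by positivity)]
    linarith only [mul_nonneg hl hl, mul_nonneg hx e0.le]
  linarith [mul_le_mul_of_nonneg_left h1 hl]

/-- The identity multiplier. -/
def I1 (_ : Z3) : C3 →L[ℂ] C3 := ((1 : ℝ) : ℂ) • ContinuousLinearMap.id ℂ C3

/-- The multiplier `Λ`. -/
def La (k : Z3) : C3 →L[ℂ] C3 := ((ax k : ℝ) : ℂ) • ContinuousLinearMap.id ℂ C3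

lemma mult_I1 : Mult I1 := mult_scalar (φ := fun _ => 1) (C := 1) (m := 0) zero_le_one fun k => by simp

lemma mult_La : Mult La :=
  mult_scalar (C := 1) (m := 1) zero_le_one fun k => by
    rw [abs_of_nonneg (ax_nonneg k)]; simpa using ax_le_w k

lemma energy_eq {ν : ℝ} {A : Z3 → C3 →L[ℂ] C3} (hA : Diss ν A) {a : Z3 → C3}
    (ha : Rapid a) (da : DivFree a) (ra : IsReal a) :
    QQ I1 a (FF A a) = -QQ I1 a fun k => A k (a k) := by
  rw [QQ_FF hA mult_I1 0 1 ha da ra]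
  have : (fun k => LP k (tf I1 0 1 a k)) = fun _ => 0 := by
    funext k; simp [tf, I1]
  rw [this]
  simp [TT, tt]

lemma QQ_I1_nonneg {ν : ℝ} {A : Z3 → C3 →L[ℂ] C3} (hA : Diss ν A) {a : Z3 → C3} (da : DivFree a) :
    0 ≤ QQ I1 a fun k => A k (a k) := tsum_nonneg fun k => by
  rw [I1, re_inner_scalar, one_mul]
  have := hA.pos
  exact le_trans (by positivity) (hA.coer k _ (da k))

lemma hel_ineq {ν β s : ℝ} {d1 d2 : Z3 → ℝ} (hA : Diss ν (AH d1 d2 s)) (hβ : 1 ≤ β) (hs : |s| = 1)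
    (l1 : ∀ k, ν * ax k ^ (2 * β) ≤ d1 k) (l2 : ∀ k, ν * ax k ^ (2 * β) ≤ d2 k)
    (l3 : ∀ k, ν * ax k ^ (5 - 2 * β) / Real.log (Real.exp 1 + ax k) ≤ d1 k) :
    ∃ K : ℝ, 0 ≤ K ∧ ∀ a : Z3 → C3, Rapid a → DivFree a → IsReal a →
      2 * QQ La a (FF (AH d1 d2 s) a) + ν / 2 * hq (1 / 2 + β) a ≤
        K * (2 * QQ I1 a fun k => AH d1 d2 s k (a k)) *
          ((Real.exp 1 + QQ La a a) * Real.log (Real.exp 1 + QQ La a a)) := by
  have hν := hA.pos
  have hs' : |(-s)| = 1 := by rwa [abs_neg]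
  obtain ⟨C, hC0, hC⟩ := tri_est (σ := 1 / 2) (β := β) (θ₁ := 1 / 2) (θ₂ := β - 1 / 2)
    (r := 3 / 2 - β) (by norm_num) (by linarith) (by linarith only [hβ]) (by linarith) (by norm_num)
    (by linarith) (by ring)
  set K' := ν / 4 * (C / (ν / 4)) ^ (2 : ℝ) with hK'
  have K0 : 0 ≤ K' := by positivity
  set κ := 8 * K' / ν + 1 with hκ
  have κ1 : 1 ≤ κ := by have : 0 ≤ 8 * K' / ν := by positivity
                        linarith only [this]
  have κ2 := Real.log_nonneg κ1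
  refine ⟨κ * (1 + Real.log κ), by positivity, fun a ha da ra => ?_⟩
  rw [QQ_FF hA mult_La (-s) 0 ha da ra]
  have rt := mult_La.rapid_tf (-s) 0 ha
  have h1 := choose_scale (S := |(TT a a fun k => LP k (tf La (-s) 0 a k)).re|)
    (m := B.hs (3 / 2 - β) (tf La (-s) 0 a))
    (θ := 1 / 2 + (β - 1 / 2)) (β := β) (q := 2) (Y := hq (1 / 2) a) (D := hq (1 / 2 + β) a)
    (ε := ν / 4) hC0 (hs_nonneg _ _) (by positivity) (by linarith only [hβ]) (by ring) two_pos (fun R hR => by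
      refine (hC a _ ha rt.LP da ra (mult_La.im_tf _ _ da) R hR).trans ?_
      have := hq_nonneg (1 / 2) a
      have := hq_nonneg (1 / 2 + β) a
      gcongr
      exact hs_LP_le rt _) (hq_nonneg _ _)
  rw [Real.rpow_two (B.hs _ _), hs_sq, ← hK'] at h1
  have h3 : hq (1 / 2) a = QQ La a a := by
    refine tsum_congr fun k => ?_
    rw [La, re_inner_scalar, re_inner_self]
    by_cases hk : k = 0
    · simp [ht, hk]
    · rw [ht_nat 1 (by norm_num) a hk, pow_one]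
  rw [h3] at h1
  set y := QQ La a a
  have y0 : 0 ≤ y := h3 ▸ hq_nonneg _ _
  set l := 8 * K' / ν * y with hl
  have l0 : 0 ≤ l := by positivity
  have ll := one_le_log_e_add l0
  obtain ⟨Cg, n, hCg, hg⟩ := hA.growth
  have rA := ha.map hCg hg
  have h2 : 2 * K' * y * hq (3 / 2 - β) (tf La (-s) 0 a) + ν * hq (1 / 2 + β) a ≤
      2 * QQ La a (fun k => AH d1 d2 s k (a k)) +
        l * Real.log (Real.exp 1 + l) * QQ I1 a fun k => AH d1 d2 s k (a k) := by
    refine hasSum_le (fun k => ?_)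
      (((rt.summable_ht _).hasSum.mul_left _).add ((ha.summable_ht _).hasSum.mul_left _))
      (((mult_La.summable ha rA).hasSum.mul_left _).add ((mult_I1.summable ha rA).hasSum.mul_left _))
    rw [La, I1, re_inner_scalar, re_inner_scalar, one_mul, re_inner_AH]
    have p0 : 0 ≤ ν * ax k ^ (2 * β) := mul_nonneg hν.le (Real.rpow_nonneg (ax_nonneg k) _)
    have a1 := he_nonneg hs k (a k)
    have a2 := he_nonneg hs' k (a k)
    have b1 : 0 ≤ d1 k * he s k (a k) := mul_nonneg (p0.trans (l1 k)) a1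
    have b2 : 0 ≤ d2 k * he (-s) k (a k) := mul_nonneg (p0.trans (l2 k)) a2
    unfold ht
    split_ifs with hk
    · have := ax_nonneg k
      simp only [mul_zero, add_zero]; (clear * - hν hC0 y0 ll b1 b2 this; positivity)
    have k0 := ax_pos hk
    have e1 : tf La (-s) 0 a k = ((2 * ax k : ℝ) : ℂ) • hp s k (a k) := by
      have : ((ax k : ℝ) : ℂ) ≠ 0 := by exact_mod_cast k0.ne'
      simp only [tf, La, hp, smul_apply, ContinuousLinearMap.id_apply, smul_add, smul_smul]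
      push_cast
      rw [zero_smul, sub_zero, neg_smul, sub_neg_eq_add]
      congr 2 <;> field_simp
    have e2 : ax k ^ (2 * (3 / 2 - β)) * ‖tf La (-s) 0 a k‖ ^ 2 =
        4 * ax k ^ (5 - 2 * β) * ‖hp s k (a k)‖ ^ 2 := by
      rw [e1, norm_smul, Complex.norm_real, Real.norm_of_nonneg (by positivity),
        show 5 - 2 * β = 2 * (3 / 2 - β) + 2 by ring, Real.rpow_add k0, Real.rpow_two]
      ring
    have e3 : ax k ^ (2 * (1 / 2 + β)) = ax k * ax k ^ (2 * β) := by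
      rw [mul_add, Real.rpow_add k0]; norm_num
    rw [e2, e3, ← he_add s k (a k)]
    have lk := one_le_log_e_add k0.le
    have c1 : ν * ax k ^ (5 - 2 * β) ≤ d1 k * Real.log (Real.exp 1 + ax k) :=
      (div_le_iff₀ (by linarith only [lk])).mp (l3 k)
    have c2 : 2 * K' * y * (4 * ax k ^ (5 - 2 * β) * ‖hp s k (a k)‖ ^ 2) ≤
        (ax k + l * Real.log (Real.exp 1 + l)) * (d1 k * he s k (a k)) := by
      calc 2 * K' * y * (4 * ax k ^ (5 - 2 * β) * ‖hp s k (a k)‖ ^ 2)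
          = l * (ν * ax k ^ (5 - 2 * β)) * ‖hp s k (a k)‖ ^ 2 := by rw [hl]; field_simp; ring
        _ ≤ l * (d1 k * Real.log (Real.exp 1 + ax k)) * he s k (a k) := by
            have := (p0.trans (l1 k))
            gcongr
            exact norm_hp_sq_le hs k _
        _ = l * Real.log (Real.exp 1 + ax k) * (d1 k * he s k (a k)) := by ring
        _ ≤ _ := mul_le_mul_of_nonneg_right (fenchel k0.le l0) b1
    have c3 := mul_le_mul_of_nonneg_left (mul_le_mul_of_nonneg_right (l1 k) a1) k0.le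
    have c4 := mul_le_mul_of_nonneg_left (mul_le_mul_of_nonneg_right (l2 k) a2) k0.le
    have c5 : 0 ≤ l * Real.log (Real.exp 1 + l) * (d2 k * he (-s) k (a k)) := by (clear * - hν hC0 y0 ll b2; positivity)
    have c6 := mul_nonneg k0.le b2
    linarith only [c2, c3, c4, c5, c6]
  have E0 := QQ_I1_nonneg hA da
  set E := QQ I1 a fun k => AH d1 d2 s k (a k)
  have e0 := Real.exp_pos 1
  have ly := one_le_log_e_add y0
  have h5 : l * Real.log (Real.exp 1 + l) ≤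
      κ * (1 + Real.log κ) * ((Real.exp 1 + y) * Real.log (Real.exp 1 + y)) := by
    have a1 : l ≤ κ * y := by rw [hl, hκ]; linarith only [y0]
    have a2 := log_le_log_mul l0 y0 κ1 (by nlinarith only [κ1, y0, e0])
    calc l * Real.log (Real.exp 1 + l)
        ≤ (κ * (Real.exp 1 + y)) * ((1 + Real.log κ) * Real.log (Real.exp 1 + y)) := by
          gcongr; nlinarith only [κ1, y0, e0]
      _ = _ := by ring
  have h6 := mul_le_mul_of_nonneg_right h5 E0
  have h7 : 0 ≤ κ * (1 + Real.log κ) * ((Real.exp 1 + y) * Real.log (Real.exp 1 + y)) * E := by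
    (clear * - hν hC0 κ2 y0 E0 ly; positivity)
  have h4 := neg_abs_le (TT a a fun k => LP k (tf La (-s) 0 a k)).re
  linarith only [h1, h2, h6, h7, h4]

theorem hel_fourier {ν β s : ℝ} {d1 d2 : Z3 → ℝ} (hA : Diss ν (AH d1 d2 s)) (hβ : 1 ≤ β)
    (hs : |s| = 1) (l1 : ∀ k, ν * ax k ^ (2 * β) ≤ d1 k) (l2 : ∀ k, ν * ax k ^ (2 * β) ≤ d2 k)
    (l3 : ∀ k, ν * ax k ^ (5 - 2 * β) / Real.log (Real.exp 1 + ax k) ≤ d1 k)
    {a : ℝ → Z3 → C3} {Ts : ℝ} (ha : ∀ T, T < Ts → IsSol (AH d1 d2 s) a 0 T) :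
    ∃ K : ℝ, 0 ≤ K ∧
      ∀ T ∈ Ico 0 Ts, ∫⁻ t in Ioo 0 T, ENNReal.ofReal (hq (3 / 2) (a t)) ≤ ENNReal.ofReal K := by
  have hν := hA.pos
  obtain ⟨K, K0, hK⟩ := hel_ineq hA hβ hs l1 l2 l3
  obtain ⟨B1, B10, hB1⟩ := osgood (QQ I1 (a 0) (a 0)) 0 le_rfl
  obtain ⟨B, B0, hB⟩ := osgood (QQ La (a 0) (a 0)) (K * B1) (by positivity)
  refine ⟨(ν / 2)⁻¹ * B, by positivity, fun T hT => ?_⟩
  have sl := ha T hT.2
  obtain ⟨Cg, n, hCg, hg⟩ := hA.growth
  have cE : ContinuousOn (fun t => 2 * QQ I1 (a t) fun k => AH d1 d2 s k (a t k)) (Icc 0 T) := by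
    refine continuousOn_const.mul (continuousOn_QQ mult_I1 sl.bd ?_ sl.continuousOn fun k =>
      (AH d1 d2 s k).continuous.comp_continuousOn (sl.continuousOn k))
    obtain ⟨M, hM⟩ := sl.bd (0 + n)
    exact ⟨_, fun t ht => Bd.of_growth (hM t ht) hCg fun k => hg k _⟩
  have E0 : ∀ t ∈ Icc 0 T, 0 ≤ 2 * QQ I1 (a t) fun k => AH d1 d2 s k (a t k) := fun t ht =>
    mul_nonneg two_pos.le (QQ_I1_nonneg hA (sl.div t ht))
  have k1 := (hB1 T _ _ _ (fun _ => 0) hT.1 rfl (fun t ht => sl.hasDeriv_QQ hA mult_I1 ht)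
    (sl.continuousOn_QQ_FF hA mult_I1) cE
    (fun t _ => tsum_nonneg fun k => by rw [I1, re_inner_scalar, re_inner_self]; positivity)
    E0 (fun _ _ => le_rfl)
    (fun t ht => by rw [energy_eq hA (sl.rapid ht) (sl.div t ht) (sl.real t ht)]; simp)
    (by simp)).2
  have key := (hB T _ _ (fun t => ν / 2 * hq (1 / 2 + β) (a t))
    (fun t => K * (2 * QQ I1 (a t) fun k => AH d1 d2 s k (a t k))) hT.1 rfl
    (fun t ht => sl.hasDeriv_QQ hA mult_La ht)
    (sl.continuousOn_QQ_FF hA mult_La) (continuousOn_const.mul (sl.continuousOn_hq _))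
    (fun t _ => tsum_nonneg fun k => by
      rw [La, re_inner_scalar, re_inner_self]; exact mul_nonneg (ax_nonneg k) (sq_nonneg _))
    (fun t _ => mul_nonneg (by positivity) (hq_nonneg _ _))
    (fun t ht => mul_nonneg K0 (E0 t ht))
    (fun t ht => hK _ (sl.rapid ht) (sl.div t ht) (sl.real t ht)) (by
      simp only [ENNReal.ofReal_mul K0]
      rw [lintegral_const_mul' _ _ ENNReal.ofReal_ne_top]
      gcongr)).2
  have n2 : 0 < ν / 2 := by positivity
  rw [ENNReal.ofReal_mul (by positivity)]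
  refine le_trans ?_ (mul_le_mul_right key _)
  rw [← lintegral_const_mul' _ _ ENNReal.ofReal_ne_top]
  refine setLIntegral_mono' measurableSet_Ioo fun t ht => ?_
  rw [← ENNReal.ofReal_mul (by positivity), ← mul_assoc, inv_mul_cancel₀ n2.ne', one_mul]
  exact ENNReal.ofReal_le_ofReal ((sl.rapid (Ioo_subset_Icc_self ht)).hq_mono (by linarith only [hβ]))

end

end Pool.Agent.Work.MP_6bf1e5_an.B
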