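import Pool.Agent.Work.MP_6bf1e5_an.B.HelDefs

/-!
Sparse (at most two dimensional) sets of frequencies.
-/

namespace Pool.Agent.Work.MP_6bf1e5_an.B

noncomputable section

/-- The Newtonian potential at `q` of the points of `S` at distance at most `|q|` from `q` is at
most `K |q| log (e + |q|)`; all lengths are measured with `ax`. -/
def Sparse (K : ℝ) (S : Set Z3) : Prop :=
  ∀ (q : Z3) (F : Finset Z3), (∀ k ∈ F, k ∈ S ∧ ax (k - q) ≤ ax q) →
    ∑ k ∈ F, (ax (k - q))⁻¹ ≤ K * ax q * Real.log (Real.exp 1 + ax q)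

end

end Pool.Agent.Work.MP_6bf1e5_an.B
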