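import Pool.Agent.Work.MP_6bf1e5_an.B.Final
import Pool.Agent.Work.MP_6bf1e5_an.B.SparseDefs

/-!
The trilinear estimate for test fields with sparse spectrum.
-/

open Set Complex Filter Topology MeasureTheory
open scoped InnerProductSpace ComplexConjugate

namespace Pool.Agent.Work.MP_6bf1e5_an.B

noncomputable section

lemma re_tt_cases {a c : Z3 → C3} (da : DivFree a) (ra : IsReal a)
    (hc : ∀ k, (⟪c k, a k⟫_ℂ).im = 0) (p q : Z3) :
    (tt a a c (p, q)).re = 0 ∨ p ≠ 0 ∧ q ≠ 0 ∧ p + q ≠ 0 ∧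
      |(tt a a c (p, q)).re| ≤ ax (p + q) * ‖c (p + q)‖ * (‖a p‖ * ‖a q‖) := by
  have e : dt (a p) q = dt (a p) (p + q) := by rw [dt_add_right, da p, zero_add]
  by_cases hp : p = 0
  · have h0 : (dt (a 0) q).im = 0 := by
      have h := dt_cj (a 0) q
      rw [← ra 0, neg_zero] at h
      exact Complex.conj_eq_iff_im.mp h.symm
    left; simp [tt, hp, h0, hc q]
  by_cases hq : q = 0
  · left; simp [tt, hq]
  by_cases hk : p + q = 0
  · left; simp [tt, e, hk]
  refine Or.inr ⟨hp, hq, hk, (Complex.abs_re_le_norm _).trans ?_⟩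
  rw [tt, norm_mul, norm_mul, Complex.norm_I, one_mul]
  dsimp only
  rw [e]
  calc ‖dt (a p) (p + q)‖ * ‖⟪c (p + q), a q⟫_ℂ‖
      ≤ (‖a p‖ * ax (p + q)) * (‖c (p + q)‖ * ‖a q‖) :=
        mul_le_mul (norm_dt_le _ _) (norm_inner_le_norm _ _) (norm_nonneg _)
          (mul_nonneg (norm_nonneg _) (ax_nonneg _))
    _ = _ := by ring

lemma le_am_gm {t X Y l : ℝ} (ht : 0 ≤ t) (hX : 0 ≤ X) (hY : 0 ≤ Y) (hl : 0 < l)
    (h : t ^ 2 ≤ X * Y) : t ≤ (l * X + Y / l) / 2 := by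
  refine (pow_le_pow_iff_left₀ ht (by positivity) two_ne_zero).mp (h.trans ?_)
  have e1 : ((l * X + Y / l) / 2) ^ 2 - X * Y = ((l * X - Y / l) / 2) ^ 2 := by
    field_simp; ring
  linarith [sq_nonneg ((l * X - Y / l) / 2)]

/-- The kernel of the Schur test. -/
def sk (κ : Z3 → ℝ) (q p : Z3) : ℝ := if ax p ≤ ax q then κ (p + q) * (ax p)⁻¹ else 0

theorem tri_sparse {a c : Z3 → C3} (ha : Rapid a) (hc : Rapid c) (da : DivFree a) (ra : IsReal a)
    (hi : ∀ k, (⟪c k, a k⟫_ℂ).im = 0) {κ G : Z3 → ℝ} (κ0 : ∀ k, 0 ≤ κ k) (G0 : ∀ k, 0 ≤ G k)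
    (sG : Summable G) (hle : ∀ k, k ≠ 0 → (ax k * ‖c k‖) ^ 2 ≤ κ k * G k) {W s l : ℝ} (hl : 0 < l)
    (hW : ∀ q, q ≠ 0 → ∀ F : Finset Z3, ∑ p ∈ F, sk κ q p ≤ W * ax q ^ (2 * s)) :
    |(TT a a c).re| ≤ l * (hq (1 / 2) a * ∑' k, G k) + W * hq s a / l := by
  have k0 : ∀ q p, 0 ≤ sk κ q p := fun q p => by
    unfold sk
    split_ifs
    · exact mul_nonneg (κ0 _) (inv_nonneg.mpr (ax_nonneg _))
    · exact le_rfl
  have s1 : HasSum (fun z : Z3 × Z3 => ht (1 / 2) a z.1 * G z.2) (hq (1 / 2) a * ∑' k, G k) := by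
    have := (ha.summable_ht (1 / 2)).mul_of_nonneg sG (ht_nonneg _ _) G0
    exact ((ha.summable_ht _).tsum_mul_tsum sG this) ▸ this.hasSum
  let e : Z3 × Z3 ≃ Z3 × Z3 :=
    { toFun := fun z => (z.1, z.1 + z.2), invFun := fun z => (z.1, z.2 - z.1),
      left_inv := fun z => by simp, right_inv := fun z => by simp }
  have f1 := (e.hasSum_iff).mpr s1
  have b2 : ∀ q, ∀ F : Finset Z3, ∑ p ∈ F, ht 0 a q * sk κ q p ≤ W * ht s a q := by
    intro q F
    rw [← Finset.mul_sum]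
    unfold ht
    split_ifs with hq
    · simp
    · have := mul_le_mul_of_nonneg_left (hW q hq F) (sq_nonneg ‖a q‖)
      simp only [mul_zero, Real.rpow_zero, one_mul]
      linarith
  have n2 : ∀ q p, 0 ≤ ht 0 a q * sk κ q p := fun q p => mul_nonneg (ht_nonneg _ _ _) (k0 _ _)
  have t2 : ∀ q, ∑' p, ht 0 a q * sk κ q p ≤ W * ht s a q := fun q =>
    Real.tsum_le_of_sum_le (n2 q) (b2 q)
  have s2 : Summable fun z : Z3 × Z3 => ht 0 a z.1 * sk κ z.1 z.2 :=
    (summable_prod_of_nonneg fun z => n2 z.1 z.2).mpr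
      ⟨fun q => summable_of_sum_le (n2 q) (b2 q), Summable.of_nonneg_of_le
        (fun q => tsum_nonneg (n2 q)) t2 ((ha.summable_ht s).mul_left W)⟩
  have l2 : ∑' z : Z3 × Z3, ht 0 a z.1 * sk κ z.1 z.2 ≤ W * hq s a := by
    rw [s2.tsum_prod]
    exact hasSum_le t2 s2.prod.hasSum ((ha.summable_ht s).hasSum.mul_left W)
  have f2 := ((Equiv.prodComm Z3 Z3).hasSum_iff).mpr s2.hasSum
  have f := ((f1.mul_left l).add (f2.div_const l)).div_const 2
  have f' := ((Equiv.prodComm Z3 Z3).hasSum_iff).mpr f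
  obtain ⟨M1, hM1⟩ := ha 1
  obtain ⟨M0, hM0⟩ := hc 0
  have st := summable_norm_tt (hM1.mono (Nat.zero_le 1)) hM1 hM0.norm_le
  have e' : (TT a a c).re = ∑' p, (tt a a c p).re := Complex.reCLM.map_tsum st.of_norm
  have main : ∀ p q : Z3, p ≠ 0 → q ≠ 0 → p + q ≠ 0 → ax p ≤ ax q →
      ax (p + q) * ‖c (p + q)‖ * (‖a p‖ * ‖a q‖) ≤
        (l * (ht (1 / 2) a p * G (p + q)) + ht 0 a q * sk κ q p / l) / 2 := by
    intro p q hp hq hk h
    have a1 := ax_pos hp
    have a3 := ax_pos hk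
    refine le_am_gm (by (clear * - a3; positivity)) (mul_nonneg (ht_nonneg _ _ _) (G0 _)) (n2 _ _) hl ?_
    rw [ht_nat 1 (by norm_num) a hp, ht_nat 0 (by norm_num) a hq, sk, if_pos h, mul_pow]
    calc (ax (p + q) * ‖c (p + q)‖) ^ 2 * (‖a p‖ * ‖a q‖) ^ 2
        ≤ κ (p + q) * G (p + q) * (‖a p‖ * ‖a q‖) ^ 2 := by gcongr; exact hle _ hk
      _ = _ := by field_simp
  have hT := tsum_of_norm_bounded (f := fun p => (tt a a c p).re) (f.add f') fun z => by
    obtain ⟨p, q⟩ := z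
    simp only [Function.comp, e, Equiv.coe_fn_mk, Equiv.prodComm_apply, Prod.swap_prod_mk,
      Real.norm_eq_abs]
    have n : ∀ p q, 0 ≤ (l * (ht (1 / 2) a p * G (p + q)) + ht 0 a q * sk κ q p / l) / 2 :=
      fun p q => by
        have := mul_nonneg (ht_nonneg (1 / 2) a p) (G0 (p + q))
        have := n2 q p
        positivity
    have n3 := n p q
    have n4 := n q p
    rcases re_tt_cases da ra hi p q with h | ⟨hp, hq, hk, h⟩
    · rw [h, abs_zero]; linarith
    · rcases le_total (ax p) (ax q) with h' | h'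
      · linarith only [n4, h, main p q hp hq hk h']
      · have := main q p hq hp (by rwa [add_comm]) h'
        rw [add_comm q p, mul_comm ‖a q‖] at this
        rw [add_comm q p] at n4 ⊢
        linarith only [n3, h, this]
  rw [← e', Real.norm_eq_abs] at hT
  refine hT.trans ?_
  have := div_le_div_of_nonneg_right l2 hl.le
  linarith only [this]

lemma TT_add_right {a c d : Z3 → C3} (ha : Rapid a) (hc : Rapid c) (hd : Rapid d) :
    TT a a (fun k => c k + d k) = TT a a c + TT a a d := by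
  obtain ⟨M1, hM1⟩ := ha 1
  obtain ⟨M, hM⟩ := hc 0
  obtain ⟨N, hN⟩ := hd 0
  have h0 := hM1.mono (Nat.zero_le 1)
  rw [TT, TT, TT, ← (summable_tt h0 hM1 hM.norm_le).tsum_add (summable_tt h0 hM1 hN.norm_le)]
  refine tsum_congr fun z => ?_
  simp only [tt, inner_add_left, mul_add]

lemma Rapid.indicator {c : Z3 → C3} (hc : Rapid c) (S : Set Z3) : Rapid (S.indicator c) := fun s => by
  obtain ⟨M, hM⟩ := hc s
  exact ⟨_, Bd.of_growth (s := s) (m := 0) hM zero_le_one fun k => by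
    simpa using norm_indicator_le_norm_self c k⟩

lemma sq_log_le {x N : ℝ} (hx : 0 ≤ x) (hN : 0 ≤ N) (h : x ≤ 2 * N) :
    x ^ 2 / Real.log (Real.exp 1 + x) ≤ 6 * N ^ 2 / Real.log (Real.exp 1 + N) := by
  have l1 := one_le_log_e_add hx
  have l2 := one_le_log_e_add hN
  rw [div_le_div_iff₀ (by linarith) (by linarith)]
  have f := mul_le_mul_of_nonneg_left (fenchel hN hx) hx
  have a1 : x * N ≤ 2 * N ^ 2 := by nlinarith only [hN, h]
  have a2 : x ^ 2 ≤ 4 * N ^ 2 := by nlinarith only [hx, h]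
  have a3 : x ^ 2 * Real.log (Real.exp 1 + x) ≤ 4 * N ^ 2 * Real.log (Real.exp 1 + x) := by gcongr
  nlinarith only [l1, f, a1, a3, sq_nonneg N]

lemma Sparse.schur {K : ℝ} {S : Set Z3} (h : Sparse K S) (q : Z3) (hq : q ≠ 0) (F : Finset Z3) :
    ∑ p ∈ F, sk (S.indicator fun k => ax k ^ 2 / Real.log (Real.exp 1 + ax k)) q p ≤
      6 * K * ax q ^ (2 * (3 / 2 : ℝ)) := by
  classical
  have q0 := ax_pos hq
  have l := one_le_log_e_add q0.le
  have h1 := h q ((F.filter fun p => ax p ≤ ax q ∧ p + q ∈ S).image (· + q)) (by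
    intro k hk
    obtain ⟨p, hp, rfl⟩ := Finset.mem_image.mp hk
    have := (Finset.mem_filter.mp hp).2
    exact ⟨this.2, by simpa using this.1⟩)
  rw [Finset.sum_image fun _ _ _ _ h => add_right_cancel h, Finset.sum_filter] at h1
  calc _ ≤ ∑ p ∈ F, 6 * ax q ^ 2 / Real.log (Real.exp 1 + ax q) *
        if ax p ≤ ax q ∧ p + q ∈ S then (ax (p + q - q))⁻¹ else 0 := by
        refine Finset.sum_le_sum fun p _ => ?_
        unfold sk
        by_cases h1 : ax p ≤ ax q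
        · by_cases h2 : p + q ∈ S
          · simp only [h1, h2, indicator_of_mem, and_self, if_true, add_sub_cancel_right]
            exact mul_le_mul_of_nonneg_right (sq_log_le (ax_nonneg _) q0.le
              (by linarith [ax_add_le p q])) (inv_nonneg.mpr (ax_nonneg _))
          · simp [h2]
        · simp [h1]
    _ ≤ 6 * ax q ^ 2 / Real.log (Real.exp 1 + ax q) *
        (K * ax q * Real.log (Real.exp 1 + ax q)) := by
        rw [← Finset.mul_sum]
        exact mul_le_mul_of_nonneg_left h1 (by positivity)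
    _ = _ := by
        rw [show 2 * (3 / 2 : ℝ) = (3 : ℕ) by norm_num, Real.rpow_natCast]; field_simp

end

end Pool.Agent.Work.MP_6bf1e5_an.B
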