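import Pool.Agent.Work.MP_6bf1e5_an.B.Crit2

/-!
Examples of sparse sets: graphs over a coordinate plane (in particular all lattice planes) and
finite unions of sparse sets.
-/

open Set

namespace Pool.Agent.Work.MP_6bf1e5_an.B

noncomputable section

lemma Sparse.union {K K' : ℝ} {S S' : Set Z3} (h : Sparse K S) (h' : Sparse K' S') :
    Sparse (K + K') (S ∪ S') := by
  classical
  intro q F hF
  rw [← Finset.sum_filter_add_sum_filter_not F (· ∈ S), add_mul, add_mul]
  refine add_le_add (h q _ fun k hk => ?_) (h' q _ fun k hk => ?_)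
  · obtain ⟨h1, h2⟩ := Finset.mem_filter.mp hk
    exact ⟨h2, (hF k h1).2⟩
  · obtain ⟨h1, h2⟩ := Finset.mem_filter.mp hk
    exact ⟨(hF k h1).1.resolve_left h2, (hF k h1).2⟩

lemma Sparse.mono {K : ℝ} {S S' : Set Z3} (h : Sparse K S) (hS : S' ⊆ S) : Sparse K S' :=
  fun q F hF => h q F fun k hk => ⟨hS (hF k hk).1, (hF k hk).2⟩

/-- The square of radius `n` in the plane `k j = 0`. -/
def sqr (j : Fin 3) (n : ℕ) : Finset Z3 :=
  Fintype.piFinset (Function.update (fun _ => Finset.Icc (-(n : ℤ)) n) j {0})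

lemma mem_sqr {j : Fin 3} {n : ℕ} {k : Z3} : k ∈ sqr j n ↔ k j = 0 ∧ sn k ≤ n := by
  simp only [sqr, Fintype.mem_piFinset, sn, Finset.sup_le_iff, Finset.mem_univ, true_imp_iff]
  constructor
  · intro h
    have hj : k j = 0 := by simpa using h j
    refine ⟨hj, fun i => ?_⟩
    by_cases hi : i = j
    · simp [hi, hj]
    · have := h i
      rw [Function.update_of_ne hi, Finset.mem_Icc] at this
      omega
  · rintro ⟨hj, h⟩ i
    by_cases hi : i = j
    · simp [hi, hj]
    · have := h i
      rw [Function.update_of_ne hi, Finset.mem_Icc]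
      omega

lemma card_sqr (j : Fin 3) (n : ℕ) : (sqr j n).card = (2 * n + 1) ^ 2 := by
  have : (Finset.Icc (-(n : ℤ)) n).card = 2 * n + 1 := by rw [Int.card_Icc]; omega
  rw [sqr, Fintype.card_piFinset]
  fin_cases j <;> simp [Fin.prod_univ_three, this, pow_two]

/-- A set with at most one point on each line parallel to the `j`-th axis is sparse. -/
theorem sparse_of_graph (j : Fin 3) {S : Set Z3}
    (h : ∀ k ∈ S, ∀ l ∈ S, (∀ i, i ≠ j → k i = l i) → k = l) : Sparse 9 S := by
  classical
  intro q F hF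
  by_cases hq : q = 0
  · subst hq
    rw [ax_zero, mul_zero, zero_mul]
    refine le_of_eq (Finset.sum_eq_zero fun k hk => ?_)
    rw [le_antisymm ((hF k hk).2.trans_eq ax_zero) (ax_nonneg _), inv_zero]
  have q1 := one_le_ax hq
  have l1 := one_le_log_e_add (ax_nonneg q)
  let π : Z3 → Z3 := fun k => Function.update (k - q) j 0
  have inj : InjOn π F := fun k hk l hl e => h k (hF k hk).1 l (hF l hl).1 fun i hi => by
    have := congrFun e i
    simp only [π, Function.update_of_ne hi, Pi.sub_apply] at this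
    omega
  have sn1 : ∀ k, sn (π k) ≤ sn (k - q) := fun k => Finset.sup_mono_fun fun i _ => by
    by_cases hi : i = j
    · simp [π, hi]
    · simp [π, Function.update_of_ne hi]
  let f : ℕ → ℝ := fun n => if n = 0 then 1 else (n : ℝ)⁻¹
  have b1 : ∀ k, (ax (k - q))⁻¹ ≤ f (sn (π k)) := fun k => by
    simp only [f]
    split_ifs with h0
    · by_cases hk : k - q = 0
      · simp [hk]
      · exact inv_le_one_of_one_le₀ (one_le_ax hk)
    · exact inv_anti₀ (by positivity) ((Nat.cast_le.mpr (sn1 k)).trans (sn_le_ax _))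
  have b2 : ∀ n, ((F.image π).filter fun k => sn k = n).card • f n ≤ if n = 0 then 1 else 8 := by
    intro n
    have sub : ∀ k ∈ (F.image π).filter fun k => sn k = n, k j = 0 ∧ sn k = n := fun k hk => by
      obtain ⟨h1, h2⟩ := Finset.mem_filter.mp hk
      obtain ⟨l, -, rfl⟩ := Finset.mem_image.mp h1
      exact ⟨by simp [π], h2⟩
    rw [nsmul_eq_mul]
    rcases n with _ | m
    · have := Finset.card_le_card (t := sqr j 0) fun k hk => mem_sqr.mpr ⟨(sub k hk).1, (sub k hk).2.le⟩
      rw [card_sqr] at this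
      simp only [f, if_true, mul_one]
      exact_mod_cast this
    · have h1 := Finset.card_le_card (t := sqr j (m + 1) \ sqr j m) fun k hk => by
        have := sub k hk
        simp only [Finset.mem_sdiff, mem_sqr]
        omega
      have h2 : sqr j m ⊆ sqr j (m + 1) := fun k hk => by
        rw [mem_sqr] at hk ⊢; omega
      rw [Finset.card_sdiff_of_subset h2, card_sqr, card_sqr] at h1
      have h3 : (2 * (m + 1) + 1) ^ 2 - (2 * m + 1) ^ 2 ≤ 8 * (m + 1) := by
        have : (2 * (m + 1) + 1) ^ 2 = 8 * (m + 1) + (2 * m + 1) ^ 2 := by ring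
        omega
      simp only [f, Nat.succ_ne_zero, if_false]
      rw [← div_eq_mul_inv, div_le_iff₀ (by positivity)]
      exact_mod_cast h1.trans h3
  have sub : (F.image π).image sn ⊆ Finset.range (⌊ax q⌋₊ + 1) := fun n hn => by
    obtain ⟨k, hk, rfl⟩ := Finset.mem_image.mp hn
    obtain ⟨l, hl, rfl⟩ := Finset.mem_image.mp hk
    rw [Finset.mem_range, Nat.lt_succ_iff]
    exact Nat.le_floor ((Nat.cast_le.mpr (sn1 l)).trans ((sn_le_ax _).trans (hF l hl).2))
  calc ∑ k ∈ F, (ax (k - q))⁻¹ ≤ ∑ k ∈ F, f (sn (π k)) := Finset.sum_le_sum fun k _ => b1 k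
    _ = ∑ k ∈ F.image π, f (sn k) := (Finset.sum_image (f := fun k => f (sn k)) inj).symm
    _ ≤ ∑ n ∈ (F.image π).image sn, if n = 0 then 1 else 8 := by
        rw [Finset.sum_comp f sn]; exact Finset.sum_le_sum fun n _ => b2 n
    _ ≤ ∑ n ∈ Finset.range (⌊ax q⌋₊ + 1), if n = 0 then 1 else 8 :=
        Finset.sum_le_sum_of_subset_of_nonneg sub fun n _ _ => by split_ifs <;> norm_num
    _ = 8 * ⌊ax q⌋₊ + 1 := by rw [Finset.sum_range_succ']; simp [mul_comm]
    _ ≤ 9 * ax q := by linarith [Nat.floor_le (ax_nonneg q)]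
    _ ≤ _ := le_mul_of_one_le_right (by positivity) l1

end

end Pool.Agent.Work.MP_6bf1e5_an.B
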